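import Pool.Agent.G02.StmtsS
import Pool.Agent.Helper32_NJ.All
import Pool.Agent.Helper4_NJ.Tws
import Pool.Agent.Helper77_GT.F_TOR
import Pool.Agent.Helper81_GTF.PAR
import Pool.Agent.Helper81_GTF.SP
import Pool.Agent.Helper79_GT.F_HGT
import Pool.Agent.Helper24_GT.F_FG
import Pool.Agent.Helper76_GT.F_EVL
import Pool.Agent.Helper9_GT.F_DEG
import Pool.Agent.Helper91_GT.F_DIV
import Pool.Agent.Helper20_GT.F_ALG
import Pool.Agent.Helper65_GT.D_SQP
import Pool.Agent.Helper10_G02.T4C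
import Pool.Agent.Helper16_G02.LH
import Pool.Agent.Helper17_G02.GD1
import Pool.Agent.Helper17_G02.LB
import Pool.Agent.Helper18_G02.LC
import Pool.Agent.Helper18_G02.PM0
import Pool.Agent.Helper1_G02.REA
import Pool.Agent.Helper21_G02.TR2
import Pool.Agent.Helper22_G02.AD1
import Pool.Agent.Helper22_G02.GDA
import Pool.Agent.Helper24_G02.MOB
import Pool.Agent.Helper25_G02.EXA
import Pool.Agent.Helper27_G02.EXB
import Pool.Agent.Helper27_G02.RHB
import Pool.Agent.Helper29_G02.FT2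
import Pool.Agent.Helper29_G02.HLV
import Pool.Agent.Helper29_G02.R1F
import Pool.Agent.Helper29_G02.TRB
import Pool.Agent.Helper2_G02.FIN
import Pool.Agent.Helper2_G02.NJF
import Pool.Agent.Helper30_G02.VB1
import Pool.Agent.Helper32_G02.ISO
import Pool.Agent.Helper32_G02.SC2
import Pool.Agent.Helper34_G02.ARS
import Pool.Agent.Helper35_G02.IXQ
import Pool.Agent.Helper37_G02.EXS
import Pool.Agent.Helper38_G02.CLG
import Pool.Agent.Helper41_G02.DB2
import Pool.Agent.Helper41_G02.EVD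
import Pool.Agent.Helper41_G02.HD2
import Pool.Agent.Helper41_G02.KRS
import Pool.Agent.Helper41_G02.LD
import Pool.Agent.Helper41_G02.PRB
import Pool.Agent.Helper41_G02.TWV
import Pool.Agent.Helper41_G02.VA1
import Pool.Agent.Helper42_G02.GBI
import Pool.Agent.Helper45_G02.NRM
import Pool.Agent.Helper46_G02.T4A
import Pool.Agent.Helper47_G02.SB2
import Pool.Agent.Helper49_G02.ADL
import Pool.Agent.Helper49_G02.HD1
import Pool.Agent.Helper50_G02.EX1
import Pool.Agent.Helper50_G02.PTC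
import Pool.Agent.Helper50_G02.RK2
import Pool.Agent.Helper50_G02.RLS
import Pool.Agent.Helper51_G02.GDB
import Pool.Agent.Helper51_G02.TO1
import Pool.Agent.Helper52_G02.SCL
import Pool.Agent.Helper53_G02.CLB
import Pool.Agent.Helper58_G02.ARW
import Pool.Agent.Helper58_G02.VR2
import Pool.Agent.Helper60_G02.CRI
import Pool.Agent.Helper60_G02.QUA
import Pool.Agent.Helper60_G02.SEC
import Pool.Agent.Helper62_G02.FSQ
import Pool.Agent.Helper62_G02.VC2
import Pool.Agent.Helper64_G02.SUB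
import Pool.Agent.Helper64_G02.TOP
import Pool.Agent.Helper65_G02.LA
import Pool.Agent.Helper65_G02.RLB
import Pool.Agent.Helper65_G02.SPM
import Pool.Agent.Helper65_G02.SQE
import Pool.Agent.Helper67_G02.GRV
import Pool.Agent.Helper67_G02.SB1
import Pool.Agent.Helper69_G02.RKL
import Pool.Agent.Helper69_G02.RLA
import Pool.Agent.Helper70_G02.UA2
import Pool.Agent.Helper72_G02.FV1
import Pool.Agent.Helper72_G02.SA
import Pool.Agent.Helper76_G02.NSB
import Pool.Agent.Helper76_G02.UA1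
import Pool.Agent.Helper79_G02.FW1
import Pool.Agent.Helper79_G02.VB2
import Pool.Agent.Helper7_G02.ARU
import Pool.Agent.Helper7_G02.T4B
import Pool.Agent.Helper80_G02.ARV
import Pool.Agent.Helper80_G02.NSQ
import Pool.Agent.Helper81_G02.SUS
import Pool.Agent.Helper82_G02.TRA
import Pool.Agent.Helper83_G02.VC1
import Pool.Agent.Helper84_G02.GTB
import Pool.Agent.Helper85_G02.BD1
import Pool.Agent.Helper86_G02.LE
import Pool.Agent.Helper86_G02.RLC
import Pool.Agent.Helper87_G02.SCC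
import Pool.Agent.Helper88_G02.CLA
import Pool.Agent.Helper89_G02.GRW
import Pool.Agent.Helper89_G02.NTD
import Pool.Agent.Helper8_G02.NQR
import Pool.Agent.Helper8_G02.RES
import Pool.Agent.Helper8_G02.TRS
import Pool.Agent.Helper90_G02.VA2
import Pool.Agent.Helper91_G02.DLT
import Pool.Agent.Helper94_G02.SUA
import Pool.Agent.Helper95_G02.CL2
import Pool.Agent.Helper95_G02.SC1
import Pool.Agent.Helper96_G02.FT1
import Pool.Agent.Helper97_G02.GDS

set_option autoImplicit false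

/-!
# Squad G02 (MP_ba5221_nt): all rows together
-/

namespace Pool.Agent.G02

open Polynomial Pool.Agent.NJ

/-- all rows -/
theorem all_rows : MainStmt ∧ Fv1Stmt ∧ DltStmt := by
  have sqf : SQFStmt := NJ.H93.sQF
  have par : GT.F.ParStmt := by
    intro K _ _ W _ P Q
    obtain ⟨c, h1, h2⟩ := GT.F.H81.par W P Q
    exact ⟨c, h1, h2⟩
  have hgt : GT.F.HgtStmt := GT.F.H79.f_hgt par
  have fg : GT.F.FgStmt := GT.F.H24.f_fg hgt
  have sp : GT.F.SpStmt := GT.F.H81.sp
  have evl : GT.F.EvlStmt := GT.F.H76.f_evl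
  have deg : GT.F.DegStmt := GT.F.H9.f_deg par
  have div : GT.F.DivStmt := GT.F.H91.f_div deg sp hgt
  have alg : GT.F.AlgStmt := GT.F.H20.alg
  have tor : GT.F.TorStmt := GT.F.H77.f_tor
  have sqp : GT.D.SqpStmt := GT.D.H65.d_sqp
  have ptc : PtcStmt := H50.ptc
  have nrm : NrmStmt := H45.nrm ptc
  have hlv : HlvStmt := H29.hlv
  have cri : CriStmt := H60.cri hlv
  have twv : TwvStmt := H41.twv
  have la : LaStmt := H65.la
  have lb : LbStmt := H17.lb
  have le : LeStmt := H86.le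
  have ld : LdStmt := H41.ld le
  have lc : LcStmt := H18.lc
  have lh : LhStmt := H16.lh
  have rea : ReaStmt := H1.rea
  have scl : SclStmt := H52.scl
  have iso : IsoStmt := H32.iso scl
  have rla : RlaStmt := H69.rla
  have rlb : RlbStmt := H65.rlb
  have rlc : RlcStmt := H86.rlc
  have rls : RlsStmt := H50.rls
  have krs : KrsStmt := H41.krs
  have sua : SuaStmt := H94.sua lh
  have va1 : Va1Stmt := H41.va1 sua rla la lb rea sqf
  have va2 : Va2Stmt := H90.va2 sua rla la ld sqf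
  have ua1 : Ua1Stmt := H76.ua1 sua rla la lb rea sqf
  have ua2 : Ua2Stmt := H70.ua2 sua rla la lb sqf
  have sc1 : Sc1Stmt := H95.sc1 rla la lc le rea sqf
  have sc2 : Sc2Stmt := H32.sc2 rla la lc le sqf
  have sub : SubStmt := H64.sub lh
  have vb1 : Vb1Stmt := H30.vb1 sub rlb la lb sqf
  have vb2 : Vb2Stmt := H79.vb2 sub rlb la ld rea sqf
  have vc1 : Vc1Stmt := H83.vc1 rlc la rea sqf
  have vc2 : Vc2Stmt := H62.vc2 rlc la ld sqf
  have sus : SusStmt := H81.sus lh
  have sa1 : Sa1Stmt := H72.sa1 sus rls la ld rea sqf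
  have sa2 : Sa2Stmt := H72.sa2 sus rls la ld sqf
  have sb1 : Sb1Stmt := H67.sb1 sus rls la ld rea sqf
  have sb2 : Sb2Stmt := H47.sb2 sus rls la ld sqf
  have tra : TraStmt := H82.tra nrm cri twv va1 va2 ua1 ua2 sc1 sc2 rla
  have trb : TrbStmt := H29.trb nrm cri twv vb1 vb2 vc1 vc2 rlb rlc
  have trs : TrsStmt := H8.trs nrm cri twv sa1 sa2 sb1 sb2 rls krs
  have nqr : NqrStmt := H8.nqr
  have res : ResStmt := H8.res nqr
  have exa : ExaStmt := H25.exa res NJ.an
  have exb : ExbStmt := H27.exb res NJ.an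
  have exc : ExcStmt := H37.exc NJ.an
  have exs : ExsStmt := H37.exs res NJ.an
  have gda : GdaStmt := H22.gda tra scl
  have gdb : GdbStmt := H51.gdb trb scl
  have gds : GdsStmt := H97.gds trs scl
  have arv : ArvStmt := H80.arv gda gdb exa exb exc scl
  have aru : AruStmt := H7.aru gda exa iso scl
  have arw : ArwStmt := H58.arw arv iso
  have ars : ArsStmt := H34.ars gds gda exa exs iso scl
  have fin : FinStmt := H2.fin NJ.H24.gen_thm NJ.H47.rk0
  have dlt : DltStmt := H91.dlt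
  have tr2 : Tr2Stmt := H21.tr2
  have ad1 : Ad1Stmt := H22.ad1
  have adl : AdlStmt := H49.adl
  have hd1 : Hd1Stmt := H49.hd1
  have hd2 : Hd2Stmt := H41.hd2
  have qua : QuaStmt := H60.qua
  have sec : SecStmt := H60.sec
  have cl2 : Cl2Stmt := H95.cl2 sec
  have db2 : Db2Stmt := H41.db2 sec hd1
  have ixq : IxqStmt := H35.ixq ad1 adl qua cl2 db2
  have rk2 : Rk2Stmt := H50.Rk.rk2
  have scc : SccStmt := H87.scc
  have clg : ClgStmt := H38.clg sqp
  have sqe : SqeStmt := H65.sqe evl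
  have nsq : NsqStmt := H80.nsq hd1 hd2 clg sqe evl
  have top : TopStmt := H64.top tr2 rk2 nsq fg sp div alg
  have rkl : RklStmt := H69.rkl sp
  have ntd : NtdStmt := H89.ntd
  have vr2 : Vr2Stmt := H58.vr2 sub rlb la le rea sqf
  have r1f : R1fStmt := H29R.r1f nrm vb1 vr2 scc
  have ex1 : Ex1Stmt := H50.ex1 NJ.an
  have prb : PrbStmt := H41.prb ex1
  have gtb : GtbStmt := H84.gtb
  have nsb : NsbStmt := H76.nsb
  have mob : MobStmt := H24.mob
  have evd : EvdStmt := H41.evd evl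
  have spm : SpmStmt := H65.spm
  have pm0 : Pm0Stmt := H18.pm0 mob evd dlt scl
  have grv : GrvStmt := H67.grv rkl ntd twv mob evd dlt evl
  have grw : GrwStmt := H89.grw rkl ntd twv mob evd dlt evl
  have fv1 : Fv1Stmt := H72.fv1 top ixq r1f prb scc gtb nsb mob evd spm grv dlt
  have fw1 : Fw1Stmt := H79.fw1 top ixq r1f prb scc gtb nsb mob evd spm grw dlt
  have ft1 : Ft1Stmt := H96.ft1 pm0 fv1 fw1 arv aru arw ars NJ.H24.gen_thm NJ.H47.rk0
  have to1 : To1Stmt := H51.to1
  have ni1 : Ni1Stmt := H72.ni1 dlt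
  have gd1 : Gd1Stmt := H17.gd1
  have gbi : GbiStmt := H42.gbi gd1
  have bd1 : Bd1Stmt := H85.bd1 gd1 dlt NJ.H36.plc
  have rhb : RhbStmt := H27R.rhb
  have cla : ClaStmt := H88.cla rhb
  have clb : ClbStmt := H53.clb sqp
  have njf : NjfStmt := H2.njf NJ.H27.tor NJ.H36.pol NJ.H24.nis NJ.bad_all NJ.H47.deg NJ.H4.tws NJ.par_all NJ.H33.fib
  have ft2 : Ft2Stmt := H29R.ft2 dlt tor
  have t4a : T4aStmt := H46.t4a
  have t4b : T4bStmt := H7.t4b
  have t4c : T4cStmt := H10.t4c
  have fsq : FsqStmt := H62.fsq njf gbi ft2 t4a t4b t4c ni1 dlt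
  exact ⟨main_of to1 ni1 bd1 dlt cla clb ft1 fsq ft2 (NJ.main_all NJ.H4.tws), fv1, dlt⟩
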