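import Pool.Agent.Helper32_NJ.Defs

/-!
# Squad G02 (MP_ba5221_nt): the family `y² = x³ + D T x² + D² T x`. Definitions

`EG D` has a rational point of order two and, for `D` one of `k`, `k T`, `k (T - 4)`, `k T (T - 4)`
(`k ≠ 0` a rational number), bad reduction exactly at the three places `0`, `4`, `∞`.
-/

set_option autoImplicit false

namespace Pool.Agent.G02

open Polynomial

noncomputable section

/-- The curve `y² = x³ + D T x² + D² T x` over `ℚ[T]`. -/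
def EG (D : ℚ[X]) : WeierstrassCurve ℚ[X] := ⟨0, D * X, 0, D ^ 2 * X, 0⟩

/-- Every rational point of `y² = x (x² + a x + b)` has `y = 0`. -/
def Tr (a b : ℚ) : Prop := ∀ x y : ℚ, y ^ 2 = x * (x ^ 2 + a * x + b) → y = 0

/-- Integral data of a point with `x = d M² / e²` on `y² = x (x² + a x + b)`, `b = d B`. -/
structure Qt (a b d M e N B : ℤ) : Prop where
  sqf : Squarefree d
  hb : b = d * B
  cop : IsCoprime (d * M) e
  m0 : M ≠ 0
  e0 : e ≠ 0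
  eq : N ^ 2 = d * M ^ 4 + a * M ^ 2 * e ^ 2 + B * e ^ 4

/-- The double of a point with `y ≠ 0` has the `x`-coordinate `(x² - b)² / (4 y²)`; its 2-adic
valuation is negative, and it is `v(x) - 2` if `v(x) < 0`. -/
def Dbl (a b : ℤ) : Prop := ∀ x y : ℚ, y ≠ 0 → y ^ 2 = x * (x ^ 2 + a * x + b) →
  padicValRat 2 ((x ^ 2 - b) ^ 2 / (4 * y ^ 2)) < 0 ∧
    (padicValRat 2 x < 0 →
      padicValRat 2 ((x ^ 2 - b) ^ 2 / (4 * y ^ 2)) = padicValRat 2 x - 2)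

/-- The `x`-coordinates of the points of `y² = x (x² + a x + b)` are `0` or have the class of `s` or
`b s` for an `s ∈ S`. -/
def Cl (a b : ℚ) (S : Set ℚ) : Prop := ∀ x y : ℚ, x ≠ 0 → y ^ 2 = x * (x ^ 2 + a * x + b) →
  ∃ s ∈ S, IsSquare (s * x) ∨ IsSquare (s * b * x)

/-- `d` has no prime divisors besides `2`, `p`, `q`, `r`. -/
def Sup (d : ℤ) (p q r : ℕ) : Prop :=
  ∀ l : ℕ, l.Prime → (l : ℤ) ∣ d → l = 2 ∨ l = p ∨ l = q ∨ l = r

/-- Recipe A: `u = 2 p`, `v = q`, `w = u - 4 v = -2 r`, `t = 2 p / q`. -/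
structure RA (k : ℤ) (p q r : ℕ) : Prop where
  sqf : Squarefree k
  pp : p.Prime
  pq : q.Prime
  pr : r.Prime
  mp : p % 8 = 3
  mq : q % 8 = 3
  hr : (r : ℤ) = 2 * q - p
  ne : p ≠ q
  leg : ∀ (l : ℕ) [Fact l.Prime], l ≠ 2 → (l : ℤ) ∣ k →
    legendreSym l (2 * p * q) = -1 ∧ legendreSym l (-(p * r)) = -1

/-- Recipe B: `u = 2 p`, `v = -q`, `w = u - 4 v = 2 r`, `t = -2 p / q`. -/
structure RB (k : ℤ) (p q r : ℕ) : Prop where
  sqf : Squarefree k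
  pp : p.Prime
  pq : q.Prime
  pr : r.Prime
  mp : p % 8 = 3
  mq : q % 8 = 5
  hr : (r : ℤ) = p + 2 * q
  leg : ∀ (l : ℕ) [Fact l.Prime], l ≠ 2 → (l : ℤ) ∣ k →
    legendreSym l (-(2 * p * q)) = -1 ∧ legendreSym l (p * r) = -1

/-- Recipe C (only for `k = 2`): `u = p`, `v = 2 q`, `w = u - 4 v = -r`, `t = p / (2 q)`. -/
structure RC (p q r : ℕ) : Prop where
  pp : p.Prime
  pq : q.Prime
  pr : r.Prime
  mp : p % 8 = 3
  mq : q % 8 = 7
  hr : (r : ℤ) = 8 * q - p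

/-- Recipe S: `u = 8 p`, `v = q`, `w = u - 4 v = -4 r`, `t = 8 p / q`; `p` and `q` are `m` modulo 8
(`m = 3` or `m = 5`). -/
structure RS (m : ℕ) (k : ℤ) (p q r : ℕ) : Prop where
  sqf : Squarefree k
  pp : p.Prime
  pq : q.Prime
  pr : r.Prime
  mp : p % 8 = m
  mq : q % 8 = m
  hr : (r : ℤ) = q - 2 * p
  leg : ∀ (l : ℕ) [Fact l.Prime], l ≠ 2 → (l : ℤ) ∣ k →
    legendreSym l (2 * p * q) = -1 ∧ legendreSym l (-(2 * p * r)) = -1

/-- The six symbols between `p`, `q`, `r`, and disjointness. -/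
structure Sym6 (k : ℤ) (p q r : ℕ) [Fact p.Prime] [Fact q.Prime] [Fact r.Prime]
    (pQ pR qP qR rP rQ : ℤ) : Prop where
  p2 : p ≠ 2
  q2 : q ≠ 2
  r2 : r ≠ 2
  npq : p ≠ q
  npr : p ≠ r
  nqr : q ≠ r
  kp : ¬ (p : ℤ) ∣ k
  kq : ¬ (q : ℤ) ∣ k
  kr : ¬ (r : ℤ) ∣ k
  hpQ : legendreSym p q = pQ
  hpR : legendreSym p r = pR
  hqP : legendreSym q p = qP
  hqR : legendreSym q r = qR
  hrP : legendreSym r p = rP
  hrQ : legendreSym r q = rQ
  one : pQ = 1 ∨ pQ = -1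

/-- `t` is a good parameter for the value `D`: `t` and `t (t - 4)` are not squares and all rational
points of the fibre have `y = 0`. -/
def Gd (D t : ℚ) : Prop :=
  D ≠ 0 ∧ ¬ IsSquare t ∧ ¬ IsSquare (t * (t - 4)) ∧ Tr (D * t) (D ^ 2 * t)

end

end Pool.Agent.G02
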