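import Pool.Agent.Helper32_NJ.Defs

/-!
# Squad G02 (MP_ba5221_nt): exactly one point of order two
-/

set_option autoImplicit false

namespace Pool.Agent.G02

noncomputable section

open Classical in
/-- There is exactly one rational point of order two: there are exactly two rational points `P` with
`2 P = 0`. -/
def OneTwo {F : Type} [Field F] (W : WeierstrassCurve F) : Prop :=
  Nat.card {P : W.toAffine.Point // 2 • P = 0} = 2

end

end Pool.Agent.G02
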