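import Pool.Agent.G02.Defs
import Pool.Agent.GT.DefsF

/-!
# Squad G02 (MP_ba5221_nt), part 2: one rational 2-torsion point in general, rank one. Definitions
-/

set_option autoImplicit false

namespace Pool.Agent.G02

open Polynomial Pool.Agent.NJ Pool.Agent.GT.F

noncomputable section

/-- `e` is a root of the 2-division polynomial `4 x³ + b₂ x² + 2 b₄ x + b₆`, and this polynomial is
`4 X (X² + a X + b)` with `X = x - e`. -/
def Rt1 {R : Type} [CommRing R] (W : WeierstrassCurve R) (e a b : R) : Prop :=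
  W.b₂ = 4 * a - 12 * e ∧ W.b₄ = 6 * e ^ 2 - 4 * a * e + 2 * b ∧
    W.b₆ = -4 * (e ^ 3 - a * e ^ 2 + b * e)

theorem Rt1.map {R S : Type} [CommRing R] [CommRing S] {W : WeierstrassCurve R} {e a b : R}
    (h : Rt1 W e a b) (f : R →+* S) : Rt1 (W.map f) (f e) (f a) (f b) := by
  obtain ⟨h1, h2, h3⟩ := h
  refine ⟨?_, ?_, ?_⟩
  · rw [WeierstrassCurve.map_b₂, h1]
    simp only [map_sub, map_mul, map_ofNat]
  · rw [WeierstrassCurve.map_b₄, h2]
    simp only [map_sub, map_add, map_mul, map_pow, map_ofNat]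
  · rw [WeierstrassCurve.map_b₆, h3]
    simp only [map_sub, map_add, map_mul, map_pow, map_neg, map_ofNat]

/-- The class modulo squares of the point `P` at the root `e` is the class of `c`: the class of
`x - e`; for the point `(e, y)` the class of `b`, for the point at infinity the class of `1`. -/
def D0 {K : Type} [Field K] (W : WeierstrassCurve K) (e b c : K) : W.toAffine.Point → Prop
  | .zero => IsSquare c
  | .some x _ _ => (x ≠ e → IsSquare (c * (x - e))) ∧ (x = e → IsSquare (c * b))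

/-- `ρ` (an element of an extension field `L` of `ℚ`) is a root of the 2-division polynomial; the class
of `x - ρ` modulo squares of `L` is the class of the rational number `c`. -/
def DL (W : WeierstrassCurve ℚ) {L : Type} [Field L] [Algebra ℚ L] (ρ : L) (c : ℚ) :
    W.toAffine.Point → Prop
  | .zero => IsSquare (algebraMap ℚ L c)
  | .some x _ _ => IsSquare (algebraMap ℚ L c * (algebraMap ℚ L x - ρ))

/-- `L` is a quadratic extension of `ℚ` generated by `β`, `β² = m`. -/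
structure Qu (m : ℚ) (L : Type) [Field L] [Algebra ℚ L] (β : L) : Prop where
  nsq : ¬ IsSquare m
  sq : β ^ 2 = algebraMap ℚ L m
  nr : ∀ c : ℚ, β ≠ algebraMap ℚ L c
  ker : ∀ c : ℚ, IsSquare (algebraMap ℚ L c) → IsSquare c ∨ IsSquare (c * m)

/-- The finite place `t ∈ ℂ` is good, in terms of `a` and `b`. -/
def Gt (a b : ℚ[X]) (t : ℂ) : Prop :=
  ∃ m : ℕ, (X - C t) ^ (2 * m) ∣ a.map (algebraMap ℚ ℂ) ∧
    (b.map (algebraMap ℚ ℂ)).rootMultiplicity t = 4 * m ∧
    ((a ^ 2 - 4 * b).map (algebraMap ℚ ℂ)).rootMultiplicity t = 4 * m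

/-- The place at infinity is good, in terms of `a` and `b`. -/
def Gi (a b : ℚ[X]) : Prop :=
  ∃ m : ℕ, a.natDegree ≤ 2 * m ∧ b.natDegree = 4 * m ∧ (a ^ 2 - 4 * b).natDegree = 4 * m

/-- All bad places are rational, and there are at most three. -/
def Few1 (a b : ℚ[X]) : Prop :=
  (∀ t : ℂ, ¬ Gt a b t → ∃ c : ℚ, t = (c : ℂ)) ∧
  ∀ F : Finset ℂ, (∀ t ∈ F, ¬ Gt a b t) → F.card ≤ 3 ∧ (¬ Gi a b → F.card ≤ 2)

/-- The product of the `T - c`, `c ∈ R`, times `k`, in `ℚ(T)`. -/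
def pr (k : ℚ) (R : Finset ℚ) : RatFunc ℚ := algebraMap ℚ[X] (RatFunc ℚ) (C k * ∏ c ∈ R, (X - C c))

/-- The function `x / y`. -/
def lam (x y : ℚ[X]) : RatFunc ℚ := algebraMap ℚ[X] (RatFunc ℚ) x / algebraMap ℚ[X] (RatFunc ℚ) y

/-- `x / y` is a Möbius transformation over `ℚ`. -/
structure Lin (x y : ℚ[X]) : Prop where
  dx : x.natDegree ≤ 1
  dy : y.natDegree ≤ 1
  cop : IsCoprime x y
  nc : ¬ (x.natDegree = 0 ∧ y.natDegree = 0)
  x0 : x ≠ 0
  y0 : y ≠ 0

/-- `X² + a X + b` is `X² + D l X + D² l`, `l = x / y` linear, `D = k m² l^i (l - 4)^j`. -/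
structure Ty1 (a b x y : ℚ[X]) (k : ℚ) (m : RatFunc ℚ) (i j : ℕ) : Prop where
  lin : Lin x y
  k0 : k ≠ 0
  m0 : m ≠ 0
  ha : algebraMap ℚ[X] (RatFunc ℚ) a =
    RatFunc.C k * m ^ 2 * lam x y ^ i * (lam x y - 4) ^ j * lam x y
  hb : algebraMap ℚ[X] (RatFunc ℚ) b =
    (RatFunc.C k * m ^ 2 * lam x y ^ i * (lam x y - 4) ^ j) ^ 2 * lam x y

/-- There are primes `> n` which divide `τ`, `τ - 4`, `1 / τ` exactly once. -/
def Sp3 (τ : ℚ) (n : ℕ) : Prop :=
  (∃ p : ℕ, p.Prime ∧ n < p ∧ padicValRat p τ = 1) ∧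
  (∃ p : ℕ, p.Prime ∧ n < p ∧ padicValRat p (τ - 4) = 1) ∧
  (∃ p : ℕ, p.Prime ∧ n < p ∧ padicValRat p τ = -1)

end

end Pool.Agent.G02
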