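import Pool.Agent.G02.DefsM
import Pool.Agent.GT.DefsD
import Pool.Agent.G02.DefsR

set_option autoImplicit false

/-!
# Squad G02 (MP_ba5221_nt): the curve `y² = x³ - T x² + T x` belongs to the class

It has exactly one rational point of order two, and its places of bad reduction are `0`, `4` and
infinity.
-/

namespace Pool.Agent.G02.Ex

open Polynomial Pool.Agent.NJ

/-! ### Places of `ℂ(T)` -/

section Places

variable {A B : ValuationSubring (RatFunc ℂ)}

theorem val_const (hA : ∀ c : ℂ, RatFunc.C c ∈ A) {c : ℂ} (hc : c ≠ 0) :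
    A.valuation (RatFunc.C c) = 1 := by
  have h1 : A.valuation (RatFunc.C c) ≤ 1 := (A.valuation_le_one_iff _).2 (hA c)
  have h2 : A.valuation (RatFunc.C c⁻¹) ≤ 1 := (A.valuation_le_one_iff _).2 (hA c⁻¹)
  have h3 : A.valuation (RatFunc.C c) * A.valuation (RatFunc.C c⁻¹) = 1 := by
    rw [← map_mul, ← map_mul, mul_inv_cancel₀ hc, map_one, map_one]
  refine le_antisymm h1 ?_
  calc (1 : _) = A.valuation (RatFunc.C c) * A.valuation (RatFunc.C c⁻¹) := h3.symm
    _ ≤ A.valuation (RatFunc.C c) * 1 := mul_le_mul_right h2 _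
    _ = _ := mul_one _

theorem trivialOn (hA : ∀ c : ℂ, RatFunc.C c ∈ A) : A.valuation.IsTrivialOn ℂ :=
  ⟨fun _ hc => val_const hA hc⟩

open Classical in
theorem inf_unique (hA : ∀ c : ℂ, RatFunc.C c ∈ A) (hB : ∀ c : ℂ, RatFunc.C c ∈ B)
    (h1 : (RatFunc.X : RatFunc ℂ) ∉ A) (h2 : (RatFunc.X : RatFunc ℂ) ∉ B) : A = B := by
  have key : ∀ D : ValuationSubring (RatFunc ℂ), (∀ c : ℂ, RatFunc.C c ∈ D) →
      (RatFunc.X : RatFunc ℂ) ∉ D → ∀ f : RatFunc ℂ, f ∈ D ↔ RatFunc.inftyValuation ℂ f ≤ 1 := by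
    intro D hD hX f
    have := trivialOn hD
    have hlt : 1 < D.valuation RatFunc.X := by
      rw [← not_le]
      exact fun h => hX ((D.valuation_le_one_iff _).1 h)
    have h := (RatFunc.valuation_isEquiv_inftyValuation_of_one_lt_valuation_X hlt)
    rw [← D.valuation_le_one_iff]
    exact (Valuation.isEquiv_iff_val_le_one.1 h)
  ext f
  rw [key A hA h1, key B hB h2]

/-- A valuation ring with `(X - c)⁻¹ ∉ A` consists of the functions which are regular at `c`. -/
theorem fin_mem (hA : ∀ c : ℂ, RatFunc.C c ∈ A) {c : ℂ}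
    (hc : (RatFunc.X - RatFunc.C c)⁻¹ ∉ A) (f : RatFunc ℂ) :
    f ∈ A ↔ f.denom.eval c ≠ 0 := by
  have hlt : A.valuation (RatFunc.X - RatFunc.C c) < 1 := by
    have h0 : ¬ A.valuation ((RatFunc.X - RatFunc.C c)⁻¹) ≤ 1 :=
      fun h => hc ((A.valuation_le_one_iff _).1 h)
    rw [not_le, map_inv₀] at h0
    have h1 : A.valuation (RatFunc.X - RatFunc.C c) ≠ 0 := by
      intro h
      rw [h, inv_zero] at h0
      exact absurd h0 (by simp)
    exact (one_lt_inv₀ (zero_lt_iff.2 h1)).1 h0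
  have hXc : (RatFunc.X - RatFunc.C c : RatFunc ℂ) ∈ A := (A.valuation_le_one_iff _).1 hlt.le
  have hX : (RatFunc.X : RatFunc ℂ) ∈ A := by
    have := A.add_mem _ _ hXc (hA c)
    rwa [sub_add_cancel] at this
  have hpol : ∀ p : ℂ[X], algebraMap ℂ[X] (RatFunc ℂ) p ∈ A := by
    intro p
    induction p using Polynomial.induction_on' with
    | add p q hp hq => rw [map_add]; exact A.add_mem _ _ hp hq
    | monomial n a =>
      rw [← C_mul_X_pow_eq_monomial, map_mul, map_pow, RatFunc.algebraMap_X, RatFunc.algebraMap_C]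
      exact A.mul_mem _ _ (hA a) (pow_mem hX n)
  have hval : ∀ p : ℂ[X], p.eval c = 0 → A.valuation (algebraMap ℂ[X] (RatFunc ℂ) p) < 1 := by
    intro p hp
    obtain ⟨q, hq⟩ := dvd_iff_isRoot.2 hp
    rw [hq, map_mul, map_mul, map_sub, RatFunc.algebraMap_X, RatFunc.algebraMap_C]
    exact mul_lt_one_of_lt_of_le hlt ((A.valuation_le_one_iff _).2 (hpol q))
  have hunit : ∀ p : ℂ[X], p.eval c ≠ 0 → A.valuation (algebraMap ℂ[X] (RatFunc ℂ) p) = 1 := by
    intro p hp
    have h1 : A.valuation (algebraMap ℂ[X] (RatFunc ℂ) (p - C (p.eval c))) < 1 :=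
      hval _ (by simp)
    have h2 : algebraMap ℂ[X] (RatFunc ℂ) p =
        RatFunc.C (p.eval c) + algebraMap ℂ[X] (RatFunc ℂ) (p - C (p.eval c)) := by
      rw [map_sub, RatFunc.algebraMap_C]
      ring
    rw [h2]
    have h3 := val_const hA hp
    rw [← h3] at h1
    rw [Valuation.map_add_eq_of_lt_left _ h1, h3]
  have hden : f.denom ≠ 0 := f.denom_ne_zero
  have hf : f = algebraMap ℂ[X] (RatFunc ℂ) f.num / algebraMap ℂ[X] (RatFunc ℂ) f.denom :=
    (RatFunc.num_div_denom f).symm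
  constructor
  · intro h h0
    have h1 : f.num.eval c ≠ 0 := by
      intro h2
      obtain ⟨u, v, huv⟩ := f.isCoprime_num_denom
      have h3 := congrArg (fun p : ℂ[X] => p.eval c) huv
      simp only [eval_add, eval_mul, h0, h2, mul_zero, add_zero, eval_one] at h3
      exact zero_ne_one h3
    have h2 : A.valuation f ≤ 1 := (A.valuation_le_one_iff _).2 h
    have h3 : algebraMap ℂ[X] (RatFunc ℂ) f.num = f * algebraMap ℂ[X] (RatFunc ℂ) f.denom := by
      rw [eq_div_iff] at hf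
      · exact hf.symm
      · exact RatFunc.algebraMap_ne_zero hden
    have h4 : A.valuation (algebraMap ℂ[X] (RatFunc ℂ) f.num) < 1 := by
      rw [h3, map_mul, mul_comm]
      exact mul_lt_one_of_lt_of_le (hval _ h0) h2
    rw [hunit _ h1] at h4
    exact lt_irrefl _ h4
  · intro h
    rw [← A.valuation_le_one_iff, hf, map_div₀, hunit _ h, div_one]
    exact (A.valuation_le_one_iff _).2 (hpol _)

theorem fin_unique (hA : ∀ c : ℂ, RatFunc.C c ∈ A) (hB : ∀ c : ℂ, RatFunc.C c ∈ B) {c : ℂ}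
    (h1 : (RatFunc.X - RatFunc.C c)⁻¹ ∉ A) (h2 : (RatFunc.X - RatFunc.C c)⁻¹ ∉ B) : A = B := by
  ext f
  rw [fin_mem hA h1, fin_mem hB h2]

end Places

/-! ### The curve -/

/-- The curve `y² = x³ - T x² + T x`. -/
noncomputable def EOne : WeierstrassCurve ℚ[X] := ⟨0, -X, 0, X, 0⟩

theorem EOne_disc : EOne.Δ = 16 * X ^ 3 * (X - 4) := by
  simp only [EOne, WeierstrassCurve.Δ, WeierstrassCurve.b₂, WeierstrassCurve.b₄,
    WeierstrassCurve.b₆, WeierstrassCurve.b₈]
  ring

theorem EOne_c4 : EOne.c₄ = 16 * X * (X - 3) := by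
  simp only [EOne, WeierstrassCurve.c₄, WeierstrassCurve.b₂, WeierstrassCurve.b₄]
  ring

theorem EOne_ne : EOne.Δ ≠ 0 := by
  rw [EOne_disc]
  intro h
  have h2 := congrArg (fun p : ℚ[X] => p.eval 1) h
  simp at h2
  norm_num at h2

theorem EOne_nonisotrivial : Nonisotrivial EOne := by
  intro c h
  rw [EOne_disc, EOne_c4] at h
  have h2 := congrArg (fun p : ℚ[X] => p.eval 4) h
  simp at h2
  norm_num at h2

theorem EOne_rt1 : Rt1 EOne 0 (-X) X := by
  refine ⟨?_, ?_, ?_⟩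
  · simp only [EOne, WeierstrassCurve.b₂]
    ring
  · simp only [EOne, WeierstrassCurve.b₄]
    ring
  · simp only [EOne, WeierstrassCurve.b₆]
    ring

theorem EOne_ty1 : Ty1 (-X) X X 1 (-1) 1 0 0 := by
  refine ⟨⟨?_, ?_, ?_, ?_, ?_, ?_⟩, ?_, ?_, ?_, ?_⟩
  · exact natDegree_X_le
  · simp
  · exact isCoprime_one_right
  · rintro ⟨h, -⟩
    rw [natDegree_X] at h
    exact one_ne_zero h
  · exact X_ne_zero
  · exact one_ne_zero
  · norm_num
  · exact one_ne_zero
  · simp [lam]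
  · simp [lam]

/-! ### Its bad places -/

theorem EOne_good {A : ValuationSubring (RatFunc ℂ)} (hA : ∀ c : ℂ, RatFunc.C c ∈ A)
    (h1 : (RatFunc.X : RatFunc ℂ) ∈ A) (h2 : (RatFunc.X - RatFunc.C 0 : RatFunc ℂ)⁻¹ ∈ A)
    (h3 : (RatFunc.X - RatFunc.C 4 : RatFunc ℂ)⁻¹ ∈ A) : GoodAt (genC EOne) A := by
  have hD : (genC EOne).Δ = RatFunc.C 16 * RatFunc.X ^ 3 * (RatFunc.X - RatFunc.C 4) := by
    rw [genC, WeierstrassCurve.map_Δ, EOne_disc]
    simp only [map_mul, map_pow, map_sub, map_ofNat, RingHom.comp_apply, coe_mapRingHom,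
      Polynomial.map_X, RatFunc.algebraMap_X]
  refine ⟨1, ?_⟩
  rw [one_smul, hD]
  refine ⟨?_, ?_, ?_, ?_, ?_, ?_, ?_⟩
  · simp [genC, EOne]
  · simp only [genC, EOne, WeierstrassCurve.map_a₂, map_neg, RingHom.comp_apply, coe_mapRingHom,
      Polynomial.map_X, RatFunc.algebraMap_X]
    exact A.neg_mem _ h1
  · simp [genC, EOne]
  · simp only [genC, EOne, WeierstrassCurve.map_a₄, RingHom.comp_apply, coe_mapRingHom,
      Polynomial.map_X, RatFunc.algebraMap_X]
    exact h1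
  · simp [genC, EOne]
  · rw [← hD, genC, WeierstrassCurve.map_Δ]
    intro h
    have hinj : Function.Injective
        ((algebraMap ℂ[X] (RatFunc ℂ)).comp (mapRingHom (algebraMap ℚ ℂ))) := by
      rw [RingHom.coe_comp]
      exact (IsFractionRing.injective ℂ[X] (RatFunc ℂ)).comp
        (Polynomial.map_injective _ (algebraMap ℚ ℂ).injective)
    exact EOne_ne ((map_eq_zero_iff _ hinj).1 h)
  · rw [mul_inv, mul_inv, ← map_inv₀, ← inv_pow]
    rw [map_zero, sub_zero] at h2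
    exact A.mul_mem _ _ (A.mul_mem _ _ (hA _) (pow_mem h2 3)) h3

theorem EOne_bad {A : ValuationSubring (RatFunc ℂ)} (h : A ∈ badPlaces EOne) :
    (∀ c : ℂ, RatFunc.C c ∈ A) ∧ ((RatFunc.X : RatFunc ℂ) ∉ A ∨
      (RatFunc.X - RatFunc.C 0 : RatFunc ℂ)⁻¹ ∉ A ∨
      (RatFunc.X - RatFunc.C 4 : RatFunc ℂ)⁻¹ ∉ A) := by
  refine ⟨h.1.1, ?_⟩
  by_contra hn
  push Not at hn
  exact h.2 (EOne_good h.1.1 hn.1 hn.2.1 hn.2.2)

theorem EOne_rat : ∀ A ∈ badPlaces EOne, GT.D.RatPl A := by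
  intro A h
  obtain ⟨-, h1 | h1 | h1⟩ := EOne_bad h
  · exact Or.inl h1
  · refine Or.inr ⟨0, ?_⟩
    simpa using h1
  · refine Or.inr ⟨4, ?_⟩
    simpa using h1

theorem EOne_card : (badPlaces EOne).encard ≤ 3 := by
  set S1 : Set (ValuationSubring (RatFunc ℂ)) :=
    {A | (∀ c : ℂ, RatFunc.C c ∈ A) ∧ (RatFunc.X : RatFunc ℂ) ∉ A} with hS1
  set S2 : Set (ValuationSubring (RatFunc ℂ)) :=
    {A | (∀ c : ℂ, RatFunc.C c ∈ A) ∧ (RatFunc.X - RatFunc.C 0 : RatFunc ℂ)⁻¹ ∉ A} with hS2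
  set S3 : Set (ValuationSubring (RatFunc ℂ)) :=
    {A | (∀ c : ℂ, RatFunc.C c ∈ A) ∧ (RatFunc.X - RatFunc.C 4 : RatFunc ℂ)⁻¹ ∉ A} with hS3
  have hsub : badPlaces EOne ⊆ S1 ∪ (S2 ∪ S3) := by
    intro A h
    obtain ⟨h0, h1 | h1 | h1⟩ := EOne_bad h
    · exact Or.inl ⟨h0, h1⟩
    · exact Or.inr (Or.inl ⟨h0, h1⟩)
    · exact Or.inr (Or.inr ⟨h0, h1⟩)
  have h1 : S1.encard ≤ 1 := Set.encard_le_one_iff.2
    fun A B hA hB => inf_unique hA.1 hB.1 hA.2 hB.2
  have h2 : S2.encard ≤ 1 := Set.encard_le_one_iff.2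
    fun A B hA hB => fin_unique hA.1 hB.1 hA.2 hB.2
  have h3 : S3.encard ≤ 1 := Set.encard_le_one_iff.2
    fun A B hA hB => fin_unique hA.1 hB.1 hA.2 hB.2
  calc (badPlaces EOne).encard ≤ (S1 ∪ (S2 ∪ S3)).encard := Set.encard_le_encard hsub
    _ ≤ S1.encard + (S2 ∪ S3).encard := Set.encard_union_le _ _
    _ ≤ S1.encard + (S2.encard + S3.encard) := add_le_add le_rfl (Set.encard_union_le _ _)
    _ ≤ 1 + (1 + 1) := add_le_add h1 (add_le_add h2 h3)
    _ = 3 := by norm_num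

/-! ### Its points of order two -/

/-- `T (T - 4)` is not a square in `ℚ(T)`. -/
theorem not_sq (z : RatFunc ℚ) : z ^ 2 ≠ algebraMap ℚ[X] (RatFunc ℚ) (X * (X - 4)) := by
  intro h
  obtain ⟨p, hp⟩ := IsIntegrallyClosed.exists_algebraMap_eq_of_isIntegral_pow
    (R := ℚ[X]) (K := RatFunc ℚ) (x := z) (n := 2) (by norm_num) (by
      rw [h]; exact isIntegral_algebraMap)
  have h1 : p ^ 2 = X * (X - 4) := by
    apply IsFractionRing.injective ℚ[X] (RatFunc ℚ)
    rw [map_pow, hp, h]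
  have h2 : p.eval 0 = 0 := by
    have := congrArg (fun q : ℚ[X] => q.eval 0) h1
    simpa using this
  have h3 := congrArg (fun q : ℚ[X] => (derivative q).eval 0) h1
  simp [derivative_pow, h2] at h3

open Classical in
theorem EOne_oneTwo : OneTwo (gen EOne) := by
  have hΔ : (gen EOne).Δ ≠ 0 := by
    rw [gen, WeierstrassCurve.map_Δ]
    intro h
    exact EOne_ne ((map_eq_zero_iff _ (IsFractionRing.injective ℚ[X] (RatFunc ℚ))).1 h)
  have ha1 : (gen EOne).a₁ = 0 := by simp [gen, EOne]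
  have ha2 : (gen EOne).a₂ = - RatFunc.X := by simp [gen, EOne]
  have ha3 : (gen EOne).a₃ = 0 := by simp [gen, EOne]
  have ha4 : (gen EOne).a₄ = RatFunc.X := by simp [gen, EOne]
  have ha6 : (gen EOne).a₆ = 0 := by simp [gen, EOne]
  have heq : (gen EOne).toAffine.Equation 0 0 := by
    rw [WeierstrassCurve.Affine.equation_iff, ha1, ha2, ha3, ha4, ha6]
    ring
  have hns : (gen EOne).toAffine.Nonsingular 0 0 :=
    (WeierstrassCurve.Affine.equation_iff_nonsingular_of_Δ_ne_zero hΔ).1 heq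
  set Q : (gen EOne).toAffine.Point := WeierstrassCurve.Affine.Point.some 0 0 hns with hQ
  have hQ0 : Q ≠ 0 := WeierstrassCurve.Affine.Point.some_ne_zero hns
  have hneg : ∀ x y : RatFunc ℚ, (gen EOne).toAffine.negY x y = -y := by
    intro x y
    rw [WeierstrassCurve.Affine.negY, ha1, ha3]
    ring
  have hQ2 : 2 • Q = 0 := by
    rw [two_nsmul, hQ]
    apply WeierstrassCurve.Affine.Point.add_of_Y_eq rfl
    rw [hneg, neg_zero]
  have hall : ∀ P : (gen EOne).toAffine.Point, 2 • P = 0 → P = 0 ∨ P = Q := by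
    intro P hP
    rcases P with _ | ⟨x, y, hxy⟩
    · exact Or.inl rfl
    · right
      have hy : y = (gen EOne).toAffine.negY x y := by
        by_contra hne
        rw [two_nsmul, WeierstrassCurve.Affine.Point.add_self_of_Y_ne hne] at hP
        exact WeierstrassCurve.Affine.Point.some_ne_zero _ hP
      rw [hneg] at hy
      have hy0 : y = 0 := by linear_combination hy / 2
      have he := hxy.1
      rw [WeierstrassCurve.Affine.equation_iff, ha1, ha2, ha3, ha4, ha6, hy0] at he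
      have hx : x * (x ^ 2 - RatFunc.X * x + RatFunc.X) = 0 := by linear_combination -he
      rcases mul_eq_zero.1 hx with h0 | h0
      · subst h0
        subst hy0
        rfl
      · exfalso
        apply not_sq (2 * x - RatFunc.X)
        rw [map_mul, map_sub, map_ofNat, RatFunc.algebraMap_X]
        linear_combination 4 * h0
  unfold OneTwo
  have hset : Nat.card {P : (gen EOne).toAffine.Point // 2 • P = 0} =
      Nat.card ({0, Q} : Set (gen EOne).toAffine.Point) := by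
    apply Nat.card_congr
    refine Equiv.subtypeEquivRight fun P => ⟨fun h => ?_, fun h => ?_⟩
    · exact hall P h
    · rcases h with h | h
      · rw [h, nsmul_zero]
      · rw [h, hQ2]
  rw [hset, Nat.card_coe_set_eq, Set.ncard_pair hQ0.symm]

end Pool.Agent.G02.Ex
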