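import Pool.Agent.G02.All
import Pool.Agent.G02.Ex

set_option autoImplicit false

/-!
# Squad G02 (MP_ba5221_nt): the main theorem
-/

namespace Pool.Agent.G02

open Polynomial Pool.Agent.NJ

theorem hasTwo_of_oneTwo {F : Type} [Field F] {W : WeierstrassCurve F} (h : OneTwo W) :
    HasTwo W := by
  classical
  unfold OneTwo at h
  haveI : Finite {P : W.toAffine.Point // 2 • P = 0} := by
    apply Nat.finite_of_card_ne_zero
    rw [h]
    norm_num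
  haveI : Fintype {P : W.toAffine.Point // 2 • P = 0} := Fintype.ofFinite _
  have h1 : 1 < Fintype.card {P : W.toAffine.Point // 2 • P = 0} := by
    rw [← Nat.card_eq_fintype_card, h]
    norm_num
  obtain ⟨P, hP⟩ := Fintype.exists_ne_of_one_lt_card h1 ⟨0, smul_zero _⟩
  refine ⟨P.1, fun h0 => hP (Subtype.ext h0), ?_⟩
  exact P.2

theorem main_final :
    (∀ E : WeierstrassCurve ℚ[X], E.Δ ≠ 0 → Nonisotrivial E → OneTwo (gen E) →
      (∀ A ∈ badPlaces E, GT.D.RatPl A) → (badPlaces E).encard ≤ 3 →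
      (rk (gen E) = 0 ∨ rk (gen E) = 1) ∧ (nonJumping E).Infinite) ∧
    ∃ E : WeierstrassCurve ℚ[X], E.Δ ≠ 0 ∧ Nonisotrivial E ∧ OneTwo (gen E) ∧
      (∀ A ∈ badPlaces E, GT.D.RatPl A) ∧ (badPlaces E).encard ≤ 3 ∧ rk (gen E) = 1 := by
  obtain ⟨hM, hF, -⟩ := all_rows
  refine ⟨fun E h1 h2 h3 h4 h5 => hM E h1 h2 (hasTwo_of_oneTwo h3) h4 h5, Ex.EOne, Ex.EOne_ne,
    Ex.EOne_nonisotrivial, Ex.EOne_oneTwo, Ex.EOne_rat, Ex.EOne_card, ?_⟩
  exact (hF Ex.EOne 0 (-X) X X 1 1 Ex.EOne_ne Ex.EOne_rt1 Ex.EOne_ty1).1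

end Pool.Agent.G02
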