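import Pool.Agent.G02.Defs
import Pool.Agent.Helper32_NJ.Stmts

/-!
# Squad G02 (MP_ba5221_nt): statements, rank zero

All rows are independent: the statements of the rows in `uses` are hypotheses `(h : XxxStmt)`. Complete
proofs are in the docstrings. `NJ.ANStmt`, `NJ.SQFStmt`, `NJ.GENStmt`, `NJ.RK0Stmt` are proved in
`Pool.Agent.Helper32_NJ.All` (`NJ.an`, `NJ.H93.sQF`, `NJ.H24.gen_thm`, `NJ.H47.rk0`); use them as hypotheses.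

Notation: `E(a, b) : y² = x (x² + a x + b)`, `E'(a, b) = E(-2 a, a² - 4 b)` (the 2-isogenous curve).
-/

set_option autoImplicit false

namespace Pool.Agent.G02

open Polynomial Pool.Agent.NJ

noncomputable section

/-! ## Part 1: general rows -/

/-- PTC: integral data of a point.

Proof (as `Pool.Agent.NJ.H32.pts`, file Helper32_NJ/Pts.lean).  `x = n / m` in lowest terms, `m > 0`.
`(y m²)² = m n (n² + a n m + b m²)`, so this integer is a square `W²`, `W ∈ ℤ`; `m` is coprime to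
`n (n² + a n m + b m²)`, so `m = e²`, `e ∣ W`, `W = e w`, `w² = n (n² + a n e² + b e⁴)`.  Write `n = d M²`, `d`
squarefree (`Pool.Agent.NJ.H32.sqf_part`), `M ≠ 0`.  Then `M ∣ w`, `w = M w₁`, `w₁² = d (d² M⁴ + a d M² e² + b e⁴)`,
so `d ∣ w₁²`, `d ∣ w₁` (squarefree), `w₁ = d N`, `d N² = d² M⁴ + a d M² e² + b e⁴`, so `d ∣ b e⁴`, and `d` is
coprime to `e`: `b = d B`, `N² = d M⁴ + a M² e² + B e⁴`. -/
def PtcStmt : Prop := ∀ (a b : ℤ) (x y : ℚ), x ≠ 0 → y ^ 2 = x * (x ^ 2 + a * x + b) →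
  ∃ d M e N B : ℤ, Qt a b d M e N B ∧ x = (d : ℚ) * (M : ℚ) ^ 2 / (e : ℚ) ^ 2

/-- NRM: normalisation at a prime which divides `b` an odd number of times.  Uses PTC.

Proof.  Let `x ≠ 0`.  PTC: `x = d M² / e²`.  If `¬ p ∣ d`, then `d ∈ S` and `d x = (d M / e)²`.  If `p ∣ d`: `x' = b / x`,
`y' = y b / x²` is a point (`x' (x'² + a x' + b) = (b / x) (b² + a b x + b x²) / x² = b² y² / x⁴`), `x' ≠ 0` (`b ≠ 0` because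
the valuation of `0` is `0`, even).  PTC: `x' = d' M'² / e'²`.  `x x' = b`, so `v_p(d) + v_p(d')` is odd, `v_p(d) = 1`
(squarefree), so `v_p(d')` is even, and `¬ p ∣ d'`.  So `s = d' ∈ S`, and `d' b x = d' x' x² = (d' M' x / e')²`. -/
def NrmStmt : Prop := ∀ (a b : ℤ) (p : ℕ) (S : Set ℚ), p.Prime → Odd (padicValInt p b) →
  (∀ d M e N B : ℤ, Qt a b d M e N B → ¬ (p : ℤ) ∣ d → (d : ℚ) ∈ S) → Cl a b S

/-- HLV: halving a point whose `x`-coordinate is a square.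

Proof.  `z₁ = a + 2 s² + 2 Y / s`, `z₂ = a + 2 s² - 2 Y / s`.  `z₁ z₂ = (a + 2 s²)² - 4 (s⁴ + a s² + b) = a² - 4 b ≠ 0`, and
`z² - 2 a z + (a² - 4 b) = z₁ (z₁ - 2 a + z₂) = 4 s² z₁` for `z = z₁`, so `(2 s z₁)² = z₁ (z₁² - 2 a z₁ + a² - 4 b)`, the same
for `z₂`.  By hypothesis `z₁` is a square, or `(a² - 4 b) z₁` is a square; in the second case
`z₂ = (a² - 4 b) z₁ / z₁²` is a square.  So some `z_i = r²`, `r ≠ 0`, and `r⁴ - 2 a r² + a² - 4 b = 4 s² r²`.  Put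
`x = (r² - a + 2 s r) / 2`, `y = r x`.  Then `x² - (r² - a) x + b = 0` (discriminant `(r² - a)² - 4 b = 4 s² r²`), so
`y² = r² x² = x (x² + a x + b)`; `x ≠ 0` since `b ≠ 0`.  `x² - b = 2 x² - (r² - a) x = x (2 x - r² + a) = 2 s r x = 2 s y`, so
`(x² - b)² = s² (4 y²)`. -/
def HlvStmt : Prop := ∀ a b s Y : ℚ, b ≠ 0 → a ^ 2 - 4 * b ≠ 0 → s ≠ 0 →
  Y ^ 2 = s ^ 2 * (s ^ 4 + a * s ^ 2 + b) → Cl (-2 * a) (a ^ 2 - 4 * b) {1} →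
  ∃ x y : ℚ, y ≠ 0 ∧ y ^ 2 = x * (x ^ 2 + a * x + b) ∧ (x ^ 2 - b) ^ 2 = s ^ 2 * (4 * y ^ 2)

/-- CRI: the descent criterion.  Uses HLV.

Proof.  Suppose `(x₀, y₀)` is a point with `y₀ ≠ 0`.  Then `x₀ ≠ 0`.  If `x₀` is not a square, then `b x₀` is
one, and we replace `x₀` by `b / x₀ = b x₀ / x₀²`, `y₀` by `y₀ b / x₀²`.
(*) For each point `(s², Y)`, `Y ≠ 0`, there is a point `(s₁², Y₁)`, `Y₁ ≠ 0`, such that `v(s²) < 0` and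
(`v(s₁²) < 0` implies `v(s²) = v(s₁²) - 2`), `v` the 2-adic valuation: HLV gives `(x, y)`, `y ≠ 0`, with
`s² = (x² - b)² / (4 y²)`; if `x` is not a square, replace it by `b / x` (the value `(x² - b)² / (4 y²)` does not
change); `Dbl`.
Claim by induction on `n`: there is no point `(s², Y)`, `Y ≠ 0`, with `v(s²) ≥ - n`.  By (*) `v(s²) < 0` for all
such points (also for `(s₁², Y₁)`), so `v(s₁²) = v(s²) + 2`. -/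
def CriStmt : Prop := ∀ a b : ℤ, b ≠ 0 → a ^ 2 - 4 * b ≠ 0 → Dbl a b → Cl a b {1} →
  Cl (-2 * (a : ℚ)) ((a : ℚ) ^ 2 - 4 * b) {1} → Tr a b

/-- TWV: 2-adic size of the double.

Proof.  `X = (x² - b)² / (4 y²)`, `v(X) = 2 v(x² - b) - 2 - v(y²)`; `x² ≠ b` because `v(b)` is odd; `x ≠ 0`.
`v(x) < 0`: `v(x² + a x + b) = 2 v(x)`, `v(y²) = 3 v(x)`, `v(x² - b) = 2 v(x)`, so `v(X) = v(x) - 2 < 0`.
`v(x) = 0`: `v(x² - b) = 0`, `v(y²) ≥ 0`, `v(X) ≤ -2`.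
`v(x) ≥ 1`, `v(b) = 1`: `v(x² - b) = 1`, `v(y²) = v(x) + v(x² + a x + b) ≥ 2`, `v(X) ≤ 2 - 2 - 2 < 0`.
`v(b) = 3`, `4 ∣ a`: if `v(x) = 1` then `v(x² + a x + b) = 2`, so `v(y²) = 3` is odd, impossible.  If `v(x) ≥ 2`:
`v(x² - b) = 3`, `v(x² + a x + b) = 3`, `v(y²) ≥ 5`, `v(X) ≤ 6 - 2 - 5 < 0`.
(Integral version: `x = n / m`; or use `padicValRat` and its rules for sums of different valuations.) -/
def TwvStmt : Prop := ∀ a b : ℤ, (b % 4 = 2 ∨ (b % 16 = 8 ∧ (4 : ℤ) ∣ a)) → Dbl a b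

/-- LA: local lemma.

Proof.  `b = d B`, `¬ l ∣ d`, so `B` has the same `l`-adic valuation as `b`.  If `¬ l ∣ M`: `N² ≡ d M⁴` modulo `l`, so
`(d / l) = 1`.  If `l ∣ M`: `¬ l ∣ e`.  First case (`l ∥ B`): `l ∣ N`, so `l² ∣ B e⁴`, contradiction.  Second case
(`l³ ∥ B`, `l² ∣ a`): `l⁴` divides `d M⁴` and `a M² e²`, so `N²` has the valuation `3`, odd: contradiction. -/
def LaStmt : Prop := ∀ a b d M e N B : ℤ, Qt a b d M e N B → ∀ (l : ℕ) [Fact l.Prime], l ≠ 2 →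
  ¬ (l : ℤ) ∣ d →
  (((l : ℤ) ∣ a ∧ (l : ℤ) ∣ b ∧ ¬ (l : ℤ) ^ 2 ∣ b) ∨
    ((l : ℤ) ^ 2 ∣ a ∧ (l : ℤ) ^ 3 ∣ b ∧ ¬ (l : ℤ) ^ 4 ∣ b)) →
  legendreSym l d = 1

/-- LB: local lemma.

Proof.  `4 d N² = (2 d M² + a e²)² - (a² - 4 b) e⁴`.  `¬ l ∣ d` as `d ∣ b`.  If `¬ l ∣ N`: `d (2 N)² ≡` a square, so
`(d / l) = 1`.  If `l ∣ N`: `l ∣ 2 d M² + a e²`, so `l² ∣ (a² - 4 b) e⁴`, `l ∣ e`, `l ∣ 2 d M²`, `l ∣ M`: contradiction to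
`cop`. -/
def LbStmt : Prop := ∀ a b d M e N B : ℤ, Qt a b d M e N B → ∀ (l : ℕ) [Fact l.Prime], l ≠ 2 →
  ¬ (l : ℤ) ∣ b → (l : ℤ) ∣ a ^ 2 - 4 * b → ¬ (l : ℤ) ^ 2 ∣ a ^ 2 - 4 * b → legendreSym l d = 1

/-- LE: local lemma (STRONG).

Proof.  `a₁² - 4 b₁ = l c₁`, so `¬ l ∣ b₁` and `(b₁ / l) = 1` (`4 b₁ ≡ a₁²`).  First part, `¬ l ∣ d`: `B = l² B₁`,
`b₁ = d B₁`.  If `¬ l ∣ M`: `N² ≡ d M⁴`.  If `l ∣ M`, `M = l M₁`: `¬ l ∣ e`, `N = l N₁`,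
`N₁² = l² d M₁⁴ + l a₁ M₁² e² + B₁ e⁴`, so `(B₁ / l) = 1` and `(d / l) = (b₁ / l) (B₁ / l) = 1`.
Second part, `d = l d₁`: `¬ l ∣ d₁` (squarefree), `B = l B₁`, `b₁ = d₁ B₁`, `¬ l ∣ e` (`cop`), `N = l N₁`,
`l N₁² = d₁ M⁴ + a₁ M² e² + B₁ e⁴`, `4 d₁ l N₁² = (2 d₁ M² + a₁ e²)² - l c₁ e⁴`, so `2 d₁ M² + a₁ e² = l T`,
`4 d₁ N₁² = l T² - c₁ e⁴`: `4 d₁ N₁² ≡ - c₁ e⁴ ≢ 0`, `(-c₁ d₁ / l) = 1`; and `(2 d₁ M)² ≡ -2 a₁ d₁ e² ≢ 0`,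
`(-2 a₁ d₁ / l) = 1`. -/
def LeStmt : Prop := ∀ a b d M e N B : ℤ, Qt a b d M e N B → ∀ (l : ℕ) [Fact l.Prime]
  (a₁ b₁ c₁ : ℤ), l ≠ 2 → a = l * a₁ → b = (l : ℤ) ^ 2 * b₁ → a ^ 2 - 4 * b = (l : ℤ) ^ 3 * c₁ →
  ¬ (l : ℤ) ∣ a₁ → ¬ (l : ℤ) ∣ c₁ →
  (¬ (l : ℤ) ∣ d → legendreSym l d = 1) ∧
  ∀ d₁ : ℤ, d = l * d₁ → legendreSym l (-(c₁ * d₁)) = 1 ∧ legendreSym l (-(2 * a₁ * d₁)) = 1

/-- LD: local lemma.  Uses LE.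

Proof.  If `d = l d₁`, LE: `(-c₁ d₁ / l) (-2 a₁ d₁ / l) = (2 a₁ c₁ / l) (d₁ / l)² = 1` (`d₁` is not divisible by `l`),
contradiction.  So `¬ l ∣ d`, and LE. -/
def LdStmt : Prop := ∀ a b d M e N B : ℤ, Qt a b d M e N B → ∀ (l : ℕ) [Fact l.Prime]
  (a₁ b₁ c₁ : ℤ), l ≠ 2 → a = l * a₁ → b = (l : ℤ) ^ 2 * b₁ → a ^ 2 - 4 * b = (l : ℤ) ^ 3 * c₁ →
  legendreSym l (2 * a₁ * c₁) = -1 → ¬ (l : ℤ) ∣ d ∧ legendreSym l d = 1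

/-- LC: local lemma (STRONG).

Proof.  First part, `¬ l ∣ d`: `B = l³ B₁`, `b₁ = d B₁`.  If `¬ l ∣ M`: `N² ≡ d M⁴`.  If `M = l M₁`: `¬ l ∣ e`,
`N² = l³ (l d M₁⁴ + a₁ M₁² e² + B₁ e⁴)`, the valuation of `N²` is even, so `≥ 4`, `a₁ M₁² ≡ - B₁ e²`, and as
`¬ l ∣ B₁ e²` `(-a₁ B₁ / l) = 1`, `(d / l) = (-a₁ b₁ / l)`.
Second part, `d = l d₁`: `¬ l ∣ d₁ e`, `B = l² B₁`, `b₁ = d₁ B₁`, `N = l N₁`, `l N₁² = d₁ M⁴ + a₁ M² e² + l B₁ e⁴`, so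
`l ∣ M² (d₁ M² + a₁ e²)`.  If `l ∣ M`: `N₁² ≡ B₁ e⁴`, so `(b₁ d₁ / l) = (B₁ / l) = 1`.  Otherwise `d₁ M² ≡ - a₁ e²`, and
`(-a₁ d₁ / l) = 1`. -/
def LcStmt : Prop := ∀ a b d M e N B : ℤ, Qt a b d M e N B → ∀ (l : ℕ) [Fact l.Prime]
  (a₁ b₁ : ℤ), l ≠ 2 → a = l * a₁ → b = (l : ℤ) ^ 3 * b₁ → ¬ (l : ℤ) ∣ a₁ → ¬ (l : ℤ) ∣ b₁ →
  (¬ (l : ℤ) ∣ d → legendreSym l d = 1 ∨ legendreSym l d = legendreSym l (-(a₁ * b₁))) ∧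
  ∀ d₁ : ℤ, d = l * d₁ → legendreSym l (b₁ * d₁) = 1 ∨ legendreSym l (-(a₁ * d₁)) = 1

/-- LH: local lemma.

Proof.  Suppose `d = l d₁`: `¬ l ∣ d₁`, `l ∣ B` (`l b₁ = d₁ B`), `B = l B₁`, `b₁ = d₁ B₁`, `¬ l ∣ e`, `l ∣ N`, and
`4 d₁ (d₁ M⁴ + a₁ M² e² + B₁ e⁴) = (2 d₁ M² + a₁ e²)² - (a₁² - 4 b₁) e⁴` is divisible by `l` (it is `4 d₁ N² / l`): so
`(a₁² - 4 b₁) e⁴` is a square modulo `l` and not `0`: contradiction. -/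
def LhStmt : Prop := ∀ a b d M e N B : ℤ, Qt a b d M e N B → ∀ (l : ℕ) [Fact l.Prime]
  (a₁ b₁ : ℤ), l ≠ 2 → a = l * a₁ → b = (l : ℤ) ^ 2 * b₁ →
  legendreSym l (a₁ ^ 2 - 4 * b₁) = -1 → ¬ (l : ℤ) ∣ d

/-- REA: the real place.

Proof.  `B < 0` since `b = d B`.  `a M² e² = N² - d M⁴ - B e⁴ > 0`.  And
`0 ≥ 4 d N² = (2 d M² + a e²)² - (a² - 4 b) e⁴`, so `(a² - 4 b) e⁴ ≥ 0`. -/
def ReaStmt : Prop := ∀ a b d M e N B : ℤ, Qt a b d M e N B → d < 0 → 0 < b →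
  0 < a ∧ 0 ≤ a ^ 2 - 4 * b

/-- SCL: scaling.

Proof.  `x = m² x'`, `y = m³ y'`. -/
def SclStmt : Prop := ∀ a b m : ℚ, m ≠ 0 → (Tr (a * m ^ 2) (b * m ^ 4) ↔ Tr a b)

/-- ISO: the 2-isogeny.  Uses SCL.

Proof.  (1) Let `y'² = x' (x'² - 2 a x' + b')`, `b' = a² - 4 b`, `y' ≠ 0` (so `x' ≠ 0`).  `x = y'² / (4 x'²)`,
`y = y' (x'² - b') / (8 x'²)`.  `x + a / 2 = (x' + b' / x') / 4`, so
`x² + a x + b = (x + a / 2)² - b' / 4 = (x'² - b')² / (16 x'²)` and `y² = x (x² + a x + b)`.  `Tr a b` gives `y = 0`, so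
`b' = x'²` is a square: contradiction.
(2) `t ≠ 0, 4` (`0` is a square).  `t' = 4 t / (t - 4) = 4 t (t - 4) / (t - 4)²` is not a square.  `t' - 4 = 16 / (t - 4)`,
`t' (t' - 4) = 64 t / (t - 4)²` is not a square.  (1) for `a = D t`, `b = D² t`, `a² - 4 b = D² t (t - 4)` (not a square):
`Tr (-2 D t) (D² t (t - 4))`.  `D' t' = -2 D t m²`, `D'² t' = D² t (t - 4) m⁴`, SCL. -/
def IsoStmt : Prop :=
  (∀ a b : ℚ, ¬ IsSquare (a ^ 2 - 4 * b) → Tr a b → Tr (-2 * a) (a ^ 2 - 4 * b)) ∧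
  ∀ D t D' m : ℚ, m ≠ 0 → D' = -(m ^ 2 * D * (t - 4)) / 2 → Gd D t → Gd D' (4 * t / (t - 4))

/-! ## Part 2: the recipes -/

/-- RLA: the symbols in recipe A.

Proof.  `r = 2 q - p`, so `r % 8 = 3`.  If `r = p` or `r = q` then `p = q`.  If `p ∣ k` then `legendreSym p (2 p q) = 0`
by `leg`, contradiction; the same for `q`, and for `r` with `- p r`.  `(r / p) = (2 q / p) = - (q / p)`,
`(p / q) = - (q / p)` (reciprocity), `(r / q) = (-p / q) = - (p / q) = (q / p)`, `(p / r) = - (r / p) = (q / p)`,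
`(q / r) = - (r / q) = - (q / p)`.  Here `(-1 / l) = (2 / l) = -1` for `l % 8 = 3`. -/
def RlaStmt : Prop := ∀ (k : ℤ) (p q r : ℕ) [Fact p.Prime] [Fact q.Prime] [Fact r.Prime],
  RA k p q r → r % 8 = 3 ∧ ∃ s : ℤ, Sym6 k p q r s (-s) (-s) s s (-s)

/-- RLB: the symbols in recipe B.

Proof.  `r = p + 2 q`, `r % 8 = 5`, `p ≠ q` and `p ≠ r` (classes modulo 8), `q ≠ r` (`r > q`).  The symbols as in RLA:
`(r / p) = (2 q / p) = - (q / p)`, `(p / q) = (q / p)`, `(r / q) = (p / q)`, `(p / r) = (r / p)`, `(q / r) = (r / q)`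
(`q % 4 = r % 4 = 1`). -/
def RlbStmt : Prop := ∀ (k : ℤ) (p q r : ℕ) [Fact p.Prime] [Fact q.Prime] [Fact r.Prime],
  RB k p q r → r % 8 = 5 ∧ ∃ s : ℤ, Sym6 k p q r s (-s) s s (-s) s

/-- RLC: the symbols in recipe C.

Proof.  `r = 8 q - p`, `r % 8 = 5`, the classes modulo 8 are different.  `(r / p) = (2 q / p) = - (q / p)`,
`(p / q) = - (q / p)`, `(r / q) = (-p / q) = - (p / q)`, `(p / r) = (r / p)`, `(q / r) = (r / q)`. -/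
def RlcStmt : Prop := ∀ (p q r : ℕ) [Fact p.Prime] [Fact q.Prime] [Fact r.Prime],
  RC p q r → r % 8 = 5 ∧ ∃ s : ℤ, Sym6 1 p q r s (-s) (-s) s (-s) s

/-- RLS: the symbols in recipe S.

Proof.  `r = q - 2 p`; `p ≠ q` (else `r < 0`), `r ≠ q`, `r ≠ p` (classes modulo 8).  `m = 3`: `r % 8 = 5`,
`(r / p) = (q / p)`, `(p / q) = - (q / p)`, `(r / q) = (-2 p / q) = (p / q)`, `(p / r) = (r / p)`, `(q / r) = (r / q)`.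
`m = 5`: `r % 8 = 3`, `(r / p) = (q / p)`, `(p / q) = (q / p)`, `(r / q) = (-2 p / q) = - (p / q)`, `(p / r) = (r / p)`,
`(q / r) = (r / q)`. -/
def RlsStmt : Prop :=
  (∀ (k : ℤ) (p q r : ℕ) [Fact p.Prime] [Fact q.Prime] [Fact r.Prime],
    RS 3 k p q r → r % 8 = 5 ∧ ∃ s : ℤ, Sym6 k p q r s s (-s) (-s) s (-s)) ∧
  (∀ (k : ℤ) (p q r : ℕ) [Fact p.Prime] [Fact q.Prime] [Fact r.Prime],
    RS 5 k p q r → r % 8 = 3 ∧ ∃ s : ℤ, Sym6 k p q r s s s (-s) s (-s))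

/-- KRS: the symbols of `k` in recipe S.

Proof.  Write `K = |k|` (odd, squarefree).  For each prime `l ∣ K`: the product of the two symbols of `leg` is
`(-(2 p)² q r / l) = (- q r / l) = 1`, so `(r / l) = (- q / l)`; so `J(r | K) = J(-q | K) = χ₄(K) J(q | K)`
(`J` = `jacobiSym`, `J(-1 | K) = χ₄(K)`; product over the primes of `K`).  `m = 3`, `k = K`: `r % 4 = 1`, so
`(k / r) = J(r | K)`; `q % 4 = 3`, so `(k / q) = χ₄(K) J(q | K)` (`jacobiSym.quadratic_reciprocity_if`).  So they are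
equal.  `m = 5`, `k = -K`: `r % 4 = 3`: `(k / r) = (-1 / r) (K / r) = - χ₄(K) J(r | K) = - J(q | K)`; `q % 4 = 1`:
`(k / q) = (K / q) = J(q | K)`. -/
def KrsStmt : Prop :=
  (∀ (k : ℤ) (p q r : ℕ) [Fact q.Prime] [Fact r.Prime], RS 3 k p q r → Odd k → 0 < k →
    legendreSym r k = legendreSym q k) ∧
  (∀ (k : ℤ) (p q r : ℕ) [Fact q.Prime] [Fact r.Prime], RS 5 k p q r → Odd k → k < 0 →
    legendreSym r k = -legendreSym q k)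

/-- SUA: supports in recipe A.  Uses LH.

Proof.  `d ∣ b`.  Let `l ∣ d` be a prime, `l ∉ {2, p, q, r}`: `l ∣ k` (`b` is `2 k² p q³`, ..).  Write `k = l k'`: `a = l a₁`,
`b = l² b₁`, and `a₁² - 4 b₁` is `- p r` (first and third curve) or `2 p q` (second and fourth curve) times a square
prime to `l`: `-4 k'² p q² r`, `32 k'² p q³`, `-16 k'² p³ r`, `128 k'² p³ q` (use `r = 2 q - p`; `¬ l ∣ k'` as `k` is
squarefree).  LH and `leg`. -/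
def SuaStmt : Prop := ∀ (k : ℤ) (p q r : ℕ), RA k p q r → ∀ d M e N B : ℤ,
  (Qt (2 * k * p * q) (2 * k ^ 2 * p * q ^ 3) d M e N B → Sup d p q 2) ∧
  (Qt (-(4 * k * p * q)) (-(4 * k ^ 2 * p * q ^ 2 * r)) d M e N B → Sup d p q r) ∧
  (Qt (4 * k * p ^ 2) (8 * k ^ 2 * p ^ 3 * q) d M e N B → Sup d p q 2) ∧
  (Qt (-(8 * k * p ^ 2)) (-(16 * k ^ 2 * p ^ 3 * r)) d M e N B → Sup d p 2 r)

/-- VA1: recipe A, the curve `V`.  Uses SUA, RLA, LA, LB, REA, `NJ.SQFStmt`.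

Proof.  `b = 2 k² p q³ > 0`, `a² - 4 b = -4 k² p q² r < 0`: REA, `d > 0`.  SUA, `¬ p ∣ d`, SQF (first part, primes `2`, `q`):
`d ∈ {1, 2, q, 2 q}`.  LA at `p` (`p ∣ a`, `p ∥ b`): `(d / p) = 1`.  LB at `r` (`r ∥ a² - 4 b`, `¬ r ∣ b`): `(d / r) = 1`.
`s = (q / p)`: `(2 / p) = -1`; `(q / p) = s`, `(q / r) = -s`; `(2 q / p) = -s`, `(2 q / r) = s`.  So `d = 1`. -/
def Va1Stmt : Prop := ∀ (k : ℤ) (p q r : ℕ), RA k p q r → ∀ d M e N B : ℤ,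
  Qt (2 * k * p * q) (2 * k ^ 2 * p * q ^ 3) d M e N B → ¬ (p : ℤ) ∣ d → d = 1

/-- VA2: recipe A, the curve `V'` (STRONG).  Uses SUA, RLA, LA, LD, `NJ.SQFStmt`.

Proof.  `a = -4 k p q`, `b = -4 k² p q² r`, `a² - 4 b = 32 k² p q³`.  LD at `q`: `a₁ = -4 k p`, `b₁ = -4 k² p r`,
`c₁ = 32 k² p`, `2 a₁ c₁ = -256 k³ p²`, its symbol is `(-k / q) = -1`: so `¬ q ∣ d` and `(d / q) = 1`.  LA at `p`:
`(d / p) = 1`.  SUA, SQF (primes `2`, `r`): `d = ε 2^i r^j`, `i, j ∈ {0, 1}`.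
`(d / p) = ε (-1)^i (-s)^j = 1`, `(d / q) = ε (-1)^i s^j = 1`: so `j = 0` and `ε = (-1)^i`: `d = 1` or `d = -2`.
`d = -2`: `B = 2 k² p q² r`, `N = 2 N₁`, `2 N₁² = - M⁴ - 2 k p q M² e² + k² p q² r e⁴`, `e` odd.  `k` even, `k = 2 k₁`, `k₁`
odd: `M` is even, `M = 2 M₁`, `N₁ = 2 N₂`, `2 N₂² = -4 M₁⁴ - 4 k₁ p q M₁² e² + k₁² p q² r e⁴`: the right hand side is
odd, contradiction.  `k % 4 = 1`: `M` is odd, modulo 8: `2 N₁² ≡ -1 - 2 k p q + k² q² (p r) ≡ -1 - 2 k + 1 ≡ -2`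
(`p q ≡ p r ≡ 1`): `N₁² ≡ -1` modulo 4, contradiction. -/
def Va2Stmt : Prop := ∀ (k : ℤ) (p q r : ℕ) [Fact q.Prime], RA k p q r → (k % 4 = 1 ∨ 2 ∣ k) →
  legendreSym q k = 1 → ∀ d M e N B : ℤ,
  Qt (-(4 * k * p * q)) (-(4 * k ^ 2 * p * q ^ 2 * r)) d M e N B → ¬ (p : ℤ) ∣ d → d = 1

/-- UA1: recipe A, the curve `U`.  Uses SUA, RLA, LA, LB, REA, `NJ.SQFStmt`.

Proof.  `a² - 4 b = -16 k² p³ r < 0`, `b > 0`: `d > 0`.  `d ∈ {1, 2, q, 2 q}`.  LA at `p` (`p² ∣ a`, `p³ ∥ b`), LB at `r`; end of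
the proof as in VA1. -/
def Ua1Stmt : Prop := ∀ (k : ℤ) (p q r : ℕ), RA k p q r → ∀ d M e N B : ℤ,
  Qt (4 * k * p ^ 2) (8 * k ^ 2 * p ^ 3 * q) d M e N B → ¬ (p : ℤ) ∣ d → d = 1

/-- UA2: recipe A, the curve `U'`.  Uses SUA, RLA, LA, LB, `NJ.SQFStmt`.

Proof.  `a = -8 k p²`, `b = -16 k² p³ r`, `a² - 4 b = 128 k² p³ q`.  LA at `p`: `(d / p) = 1`.  LB at `q` (`¬ q ∣ b`,
`q ∥ a² - 4 b`): `(d / q) = 1`.  `d = ε 2^i r^j`; as in VA2 `d = 1` or `d = -2`.  `d = -2`: `B = 8 k² p³ r`, `e` odd,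
`N = 2 N₁`, `2 N₁² = - M⁴ - 4 k p² M² e² + 4 k² p³ r e⁴`, so `M = 2 M₁`, `N₁² = -8 M₁⁴ - 8 k p² M₁² e² + 2 k² p³ r e⁴ ≡ 2`
modulo 4 (`k` odd): contradiction. -/
def Ua2Stmt : Prop := ∀ (k : ℤ) (p q r : ℕ), RA k p q r → Odd k → ∀ d M e N B : ℤ,
  Qt (-(8 * k * p ^ 2)) (-(16 * k ^ 2 * p ^ 3 * r)) d M e N B → ¬ (p : ℤ) ∣ d → d = 1

/-- SC1: recipe A for `k = -1`, the curve `S` (STRONG).  Uses RLA, LA, LC, LE, REA, `NJ.SQFStmt`.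

Proof.  `a = 2 p² q r`, `b = 2 p³ q³ r²`, `a² - 4 b = -4 p³ q² r³ < 0`: `d > 0`.  `d = 2^i q^j r^h` (SQF, second part).
`s = (q / p)`.  LA at `p`: `(d / p) = (-1)^i s^j (-s)^h = 1`.
LC at `q`: `a₁ = 2 p² r`, `b₁ = 2 p³ r²`, `(-a₁ b₁ / q) = (- p r / q) = - (-s) s = 1`.  So `¬ q ∣ d → (d / q) = 1`;
`d = q d₁ → (d₁ / q) = s` (`(b₁ / q) = (2 p / q) = s`, `(-a₁ / q) = (-2 r / q) = s`).
LE at `r`: `a₁ = 2 p² q`, `b₁ = 2 p³ q³`, `c₁ = -4 p³ q²`: `¬ r ∣ d → (d / r) = 1` (`d = r d₁` is not needed).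
`j = 0`: `(d / q) = (-1)^i s^h = 1` and `(-1)^i (-s)^h = 1`, so `h = 0`, `i = 0`: `d = 1`.  `j = 1`:
`(d₁ / q) = (-1)^i s^h = s` and `(-1)^i s (-s)^h = 1`, so `(-1)^h = 1`, `h = 0`, `(-1)^i = s`; but `(d / r) = (-1)^i (-s) = -1`:
contradiction. -/
def Sc1Stmt : Prop := ∀ p q r : ℕ, RA (-1) p q r → ∀ d M e N B : ℤ,
  Qt (2 * p ^ 2 * q * r) (2 * p ^ 3 * q ^ 3 * r ^ 2) d M e N B → ¬ (p : ℤ) ∣ d → d = 1

/-- SC2: recipe A for `k = -1`, the curve `S'` (STRONG).  Uses RLA, LA, LC, LE, `NJ.SQFStmt`.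

Proof.  `a = -4 p² q r`, `b = -4 p³ q² r³`, `a² - 4 b = 32 p³ q³ r²`.  `d = ε 2^i q^j r^h`.
LA at `p`: `(d / p) = ε (-1)^i s^j (-s)^h = 1`.
LE at `q`: `a₁ = -4 p² r`, `b₁ = -4 p³ r³`, `c₁ = 32 p³ r²`: `¬ q ∣ d → (d / q) = 1`; `d = q d₁ → (d₁ / q) = (-c₁ / q) =
(-2 p / q) = -s`.
LC at `r`: `a₁ = -4 p² q`, `b₁ = -4 p³ q²`, `(-a₁ b₁ / r) = (- p q / r) = - s (-s) = 1`: `¬ r ∣ d → (d / r) = 1`;
`d = r d₁ → (d₁ / r) = -s` (`(b₁ / r) = (-p / r) = -s`, `(-a₁ / r) = (q / r) = -s`).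
`(j, h) = (0, 0)`: `ε (-1)^i = 1`, `d = 1` or `d = -2`.  `(0, 1)`: `(d / q) = ε (-1)^i s = 1`, `(d / p) = - ε (-1)^i s`: no.
`(1, 0)`: `(d / p) = ε (-1)^i s = 1`, `(d₁ / q) = ε (-1)^i = -s`: no.  `(1, 1)`: `(d / p) = - ε (-1)^i = 1`, at `r`:
`d₁ = ε 2^i q`, `(d₁ / r) = ε (-1)^i (-s) = s`, must be `-s`: no.
`d = -2`: `B = 2 p³ q² r³`, `e` odd, `N = 2 N₁`, `2 N₁² = - M⁴ - 2 p² q r M² e² + p³ q² r³ e⁴`, `M` odd, modulo 8: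
`≡ -1 - 2 + 1 = -2`, `N₁² ≡ -1` modulo 4: contradiction. -/
def Sc2Stmt : Prop := ∀ p q r : ℕ, RA (-1) p q r → ∀ d M e N B : ℤ,
  Qt (-(4 * p ^ 2 * q * r)) (-(4 * p ^ 3 * q ^ 2 * r ^ 3)) d M e N B → ¬ (p : ℤ) ∣ d → d = 1

/-- SUB: supports in recipe B.  Uses LH.

Proof.  As SUA: `a₁² - 4 b₁` is `p r` or `-2 p q` times a square: `4 k'² p q² r`, `-32 k'² p q³`. -/
def SubStmt : Prop := ∀ (k : ℤ) (p q r : ℕ), RB k p q r → ∀ d M e N B : ℤ,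
  (Qt (-(2 * k * p * q)) (-(2 * k ^ 2 * p * q ^ 3)) d M e N B → Sup d p q 2) ∧
  (Qt (4 * k * p * q) (4 * k ^ 2 * p * q ^ 2 * r) d M e N B → Sup d p q r)

/-- VB1: recipe B, the curve `V` (STRONG).  Uses SUB, RLB, LA, LB, `NJ.SQFStmt`.

Proof.  `a² - 4 b = 4 k² p q² r`.  `d = ε 2^i q^j`.  LA at `p`: `(d / p) = ε (-1)^i s^j = 1`; LB at `r`:
`(d / r) = (-1)^i s^j = 1` (`(-1 / r) = 1`).  So `ε = 1`, and `j = 0` gives `d = 1`; `j = 1` gives `d = q` or `2 q`.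
`d = q`: `B = -2 k² p q²`, `N² = q M⁴ - 2 k p q M² e² - 2 k² p q² e⁴`.  `e` even: `M` odd, `N² ≡ q ≡ 5` modulo 8.  `e` odd,
`M` odd: `N² ≡ q (1 - 2 k p - 2 k² p q) ≡ q (1 - 2 - 6) ≡ q` modulo 8.  `e` odd, `M` even: `N² ≡ 2` modulo 4.
`d = 2 q`: `B = - k² p q²`, `N² = 2 q M⁴ - 2 k p q M² e² - k² p q² e⁴`, `e` odd.  `M` even: `N² ≡ -3` modulo 8.  `M` odd:
`N² ≡ 2 - 2 - 3 = -3` modulo 8 (`k p q ≡ 1` modulo 4).  All impossible. -/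
def Vb1Stmt : Prop := ∀ (k : ℤ) (p q r : ℕ), RB k p q r → k % 4 = 3 → ∀ d M e N B : ℤ,
  Qt (-(2 * k * p * q)) (-(2 * k ^ 2 * p * q ^ 3)) d M e N B → ¬ (p : ℤ) ∣ d → d = 1

/-- VB2: recipe B, the curve `V'`.  Uses SUB, RLB, LA, LD, REA, `NJ.SQFStmt`.

Proof.  `a = 4 k p q`, `b = 4 k² p q² r > 0`, `a² - 4 b = -32 k² p q³ < 0`: `d > 0`.  LD at `q`: `a₁ = 4 k p`,
`b₁ = 4 k² p r`, `c₁ = -32 k² p`, `2 a₁ c₁ = -256 k³ p²` with the symbol `(-k / q) = (k / q) = -1`: `¬ q ∣ d`,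
`(d / q) = 1`.  LA at `p`: `(d / p) = 1`.  `d = 2^i r^j`: `(d / p) = (-1)^i (-s)^j`, `(d / q) = (-1)^i s^j`: `j = 0`, `i = 0`. -/
def Vb2Stmt : Prop := ∀ (k : ℤ) (p q r : ℕ) [Fact q.Prime], RB k p q r → legendreSym q k = -1 →
  ∀ d M e N B : ℤ, Qt (4 * k * p * q) (4 * k ^ 2 * p * q ^ 2 * r) d M e N B →
    ¬ (p : ℤ) ∣ d → d = 1

/-- VC1: recipe C, the curve `V`.  Uses RLC, LA, LB, REA, `NJ.SQFStmt`.

Proof.  `a = p q`, `b = 2 p q³`, `a² - 4 b = - p q² r < 0`: `d > 0`.  `d = 2^i q^j`.  LA at `p`: `(-1)^i s^j = 1`.  So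
`d = 1`, `d = q` or `d = 2 q`.  `d = q`: `B = 2 p q²`, `N² = q M⁴ + p q M² e² + 2 p q² e⁴`.  `e` even: `M` odd,
`N² ≡ 7 + 5 e²` modulo 8, so `≡ 7` or `3`.  `e` odd, `M` odd: `≡ 7 + 5 + 6 ≡ 2`.  `e` odd, `M` even: `≡ 2` modulo 4.
`d = 2 q`: `B = p q²`, `N² = 2 q M⁴ + p q M² e² + p q² e⁴`, `e` odd.  `M` odd: `≡ 6 + 5 + 3 ≡ 6`; `M` even: `≡ 3` modulo 4.
All impossible. -/
def Vc1Stmt : Prop := ∀ p q r : ℕ, RC p q r → ∀ d M e N B : ℤ,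
  Qt (p * q) (2 * p * q ^ 3) d M e N B → ¬ (p : ℤ) ∣ d → d = 1

/-- VC2: recipe C, the curve `V'`.  Uses RLC, LA, LD, `NJ.SQFStmt`.

Proof.  `a = -2 p q`, `b = - p q² r`, `a² - 4 b = 32 p q³`.  LD at `q`: `a₁ = -2 p`, `b₁ = - p r`, `c₁ = 32 p`,
`2 a₁ c₁ = -128 p²`, `(-2 / q) = -1` (`q % 8 = 7`): `¬ q ∣ d`, `(d / q) = 1`.  LA at `p`: `(d / p) = 1`.  `d` is odd:
`d = ε r^j`: `(d / p) = ε (-s)^j`, `(d / q) = ε s^j`: `j = 0`, `ε = 1`. -/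
def Vc2Stmt : Prop := ∀ p q r : ℕ, RC p q r → ∀ d M e N B : ℤ,
  Qt (-(2 * p * q)) (-(p * q ^ 2 * r)) d M e N B → ¬ (p : ℤ) ∣ d → d = 1

/-- SUS: supports in recipe S.  Uses LH.

Proof.  As SUA: `a₁² - 4 b₁` is `-2 p r` or `2 p q` times a square: `-8 k'² p³ q² r³`, `32 k'² p³ q³ r²`. -/
def SusStmt : Prop := ∀ (m : ℕ) (k : ℤ) (p q r : ℕ), RS m k p q r → ∀ d M e N B : ℤ,
  (Qt (-(4 * k * p ^ 2 * q * r)) (2 * k ^ 2 * p ^ 3 * q ^ 3 * r ^ 2) d M e N B → Sup d p q r) ∧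
  (Qt (8 * k * p ^ 2 * q * r) (-(8 * k ^ 2 * p ^ 3 * q ^ 2 * r ^ 3)) d M e N B → Sup d p q r)

/-- SA1: recipe S, `m = 3`, the curve `S`.  Uses SUS, RLS, LA, LD, REA, `NJ.SQFStmt`.

Proof.  `a = -4 k p² q r`, `b = 2 k² p³ q³ r²`, `a² - 4 b = -8 k² p³ q² r³ < 0`: `d > 0`.  LA at `p`: `(d / p) = 1`.
LD at `r`: `a₁ = -4 k p² q`, `b₁ = 2 k² p³ q³`, `c₁ = -8 k² p³ q²`, `2 a₁ c₁ = 64 k³ p⁵ q³`, symbol
`(k p q / r) = (k / r) s (-s) = -1`: `¬ r ∣ d`, `(d / r) = 1`.  `d = 2^i q^j`: `(d / p) = (-1)^i s^j`,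
`(d / r) = (-1)^i (-s)^j`: `j = 0`, `i = 0`. -/
def Sa1Stmt : Prop := ∀ (k : ℤ) (p q r : ℕ) [Fact r.Prime], RS 3 k p q r →
  legendreSym r k = 1 → ∀ d M e N B : ℤ,
  Qt (-(4 * k * p ^ 2 * q * r)) (2 * k ^ 2 * p ^ 3 * q ^ 3 * r ^ 2) d M e N B →
    ¬ (p : ℤ) ∣ d → d = 1

/-- SA2: recipe S, `m = 3`, the curve `S'`.  Uses SUS, RLS, LA, LD, `NJ.SQFStmt`.

Proof.  `a = 8 k p² q r`, `b = -8 k² p³ q² r³`, `a² - 4 b = 32 k² p³ q³ r²`.  LA at `p`: `(d / p) = 1`.  LD at `q`: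
`a₁ = 8 k p² r`, `b₁ = -8 k² p³ r³`, `c₁ = 32 k² p³ r²`, `2 a₁ c₁ = 512 k³ p⁵ r³`, symbol
`(2 k p r / q) = - (k / q) (-s) (-s) = -1`: `¬ q ∣ d`, `(d / q) = 1`.  `d = ε 2^i r^j`: `(d / p) = ε (-1)^i s^j`,
`(d / q) = ε (-1)^i (-s)^j`: `j = 0`, `d = 1` or `-2`.  `d = -2`: `B = 4 k² p³ q² r³`, `e` odd, `N = 2 N₁`,
`2 N₁² = - M⁴ + 4 k p² q r M² e² + 2 k² p³ q² r³ e⁴`, `M = 2 M₁`,
`N₁² = -8 M₁⁴ + 8 k p² q r M₁² e² + k² p³ q² r³ e⁴ ≡ p r ≡ 7` modulo 8: contradiction. -/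
def Sa2Stmt : Prop := ∀ (k : ℤ) (p q r : ℕ) [Fact q.Prime], RS 3 k p q r → Odd k →
  legendreSym q k = 1 → ∀ d M e N B : ℤ,
  Qt (8 * k * p ^ 2 * q * r) (-(8 * k ^ 2 * p ^ 3 * q ^ 2 * r ^ 3)) d M e N B →
    ¬ (p : ℤ) ∣ d → d = 1

/-- SB1: recipe S, `m = 5`, the curve `S`.  Uses SUS, RLS, LA, LD, REA, `NJ.SQFStmt`.

Proof.  As SA1: LD at `r`, the symbol of `2 a₁ c₁` is `(k p q / r) = (k / r) s (-s) = -1`. -/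
def Sb1Stmt : Prop := ∀ (k : ℤ) (p q r : ℕ) [Fact r.Prime], RS 5 k p q r →
  legendreSym r k = 1 → ∀ d M e N B : ℤ,
  Qt (-(4 * k * p ^ 2 * q * r)) (2 * k ^ 2 * p ^ 3 * q ^ 3 * r ^ 2) d M e N B →
    ¬ (p : ℤ) ∣ d → d = 1

/-- SB2: recipe S, `m = 5`, the curve `S'`.  Uses SUS, RLS, LA, LD, `NJ.SQFStmt`.

Proof.  LA at `p`: `(d / p) = 1`.  LD at `q` (values of SA2): the symbol is `(2 k p r / q) = - (k / q) s (-s) = (k / q) =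
-1`: `¬ q ∣ d`, `(d / q) = 1`.  `d = ε 2^i r^j`, `(-1 / p) = (-1 / q) = 1`: `(d / p) = (-1)^i s^j`, `(d / q) = (-1)^i (-s)^j`:
`j = 0`, `i = 0`, `d = 1` or `-1`.  `d = -1`: `B = 8 k² p³ q² r³`, `N² = - M⁴ + 8 k p² q r M² e² + 8 k² p³ q² r³ e⁴`.  `M` odd:
`N² ≡ 7` modulo 8.  `M` even: `e` odd, `N² ≡ 8` modulo 16 (`k` odd).  Both impossible. -/
def Sb2Stmt : Prop := ∀ (k : ℤ) (p q r : ℕ) [Fact q.Prime], RS 5 k p q r → Odd k →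
  legendreSym q k = -1 → ∀ d M e N B : ℤ,
  Qt (8 * k * p ^ 2 * q * r) (-(8 * k ^ 2 * p ^ 3 * q ^ 2 * r ^ 3)) d M e N B →
    ¬ (p : ℤ) ∣ d → d = 1

/-- TRA: recipe A, conclusions.  Uses NRM, CRI, TWV, VA1, VA2, UA1, UA2, SC1, SC2, RLA.

Proof.  In each case `Dbl a b` from TWV: (1) `k` odd: `b = 2 k² p q³ ≡ 2` modulo 4; `k` even (not divisible by 4):
`b ≡ 8` modulo 16, `4 ∣ a`; (2) `b = 8 k² p³ q ≡ 8` modulo 16, `4 ∣ a`; (3) `b = 2 p³ q³ r² ≡ 2` modulo 4.  `Cl` of `E(a, b)`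
and of `E'(a, b)` (`a² - 4 b` is given in the rows; `r = 2 q - p`) from NRM with the prime `p` (which divides `b` and
`a² - 4 b` exactly once, or exactly three times; `¬ p ∣ k`, `p ≠ q, r` by RLA), `S = {1}`.  CRI. -/
def TraStmt : Prop := ∀ (k : ℤ) (p q r : ℕ) [Fact q.Prime], RA k p q r →
  ((k % 4 = 1 ∨ 2 ∣ k) → legendreSym q k = 1 →
    Tr ((2 * k * p * q : ℤ) : ℚ) ((2 * k ^ 2 * p * q ^ 3 : ℤ) : ℚ)) ∧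
  (Odd k → Tr ((4 * k * p ^ 2 : ℤ) : ℚ) ((8 * k ^ 2 * p ^ 3 * q : ℤ) : ℚ)) ∧
  (k = -1 → Tr ((2 * p ^ 2 * q * r : ℤ) : ℚ) ((2 * p ^ 3 * q ^ 3 * r ^ 2 : ℤ) : ℚ))

/-- TRB: recipes B and C, conclusions.  Uses NRM, CRI, TWV, VB1, VB2, VC1, VC2, RLB, RLC.

Proof.  As TRA; `b ≡ 2` modulo 4 in both cases. -/
def TrbStmt : Prop :=
  (∀ (k : ℤ) (p q r : ℕ) [Fact q.Prime], RB k p q r → k % 4 = 3 → legendreSym q k = -1 →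
    Tr ((-(2 * k * p * q) : ℤ) : ℚ) ((-(2 * k ^ 2 * p * q ^ 3) : ℤ) : ℚ)) ∧
  (∀ p q r : ℕ, RC p q r → Tr ((p * q : ℤ) : ℚ) ((2 * p * q ^ 3 : ℤ) : ℚ))

/-- TRS: recipe S, conclusions.  Uses NRM, CRI, TWV, SA1, SA2, SB1, SB2, RLS, KRS.

Proof.  As TRA; `b ≡ 2` modulo 4.  `m = 3`: `(k / r) = (k / q) = 1`; `m = 5`: `(k / r) = - (k / q) = 1` (KRS). -/
def TrsStmt : Prop :=
  (∀ (k : ℤ) (p q r : ℕ) [Fact q.Prime], RS 3 k p q r → Odd k → 0 < k → legendreSym q k = 1 →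
    Tr ((-(4 * k * p ^ 2 * q * r) : ℤ) : ℚ) ((2 * k ^ 2 * p ^ 3 * q ^ 3 * r ^ 2 : ℤ) : ℚ)) ∧
  (∀ (k : ℤ) (p q r : ℕ) [Fact q.Prime], RS 5 k p q r → Odd k → k < 0 → legendreSym q k = -1 →
    Tr ((-(4 * k * p ^ 2 * q * r) : ℤ) : ℚ) ((2 * k ^ 2 * p ^ 3 * q ^ 3 * r ^ 2 : ℤ) : ℚ))

/-! ## Part 3: the primes -/

/-- NQR: a non-residue `t` with `t - 4` a residue.

Proof.  Let `j ≥ 1` be minimal with `(4 j / l) = -1` (it exists: `4 j`, `1 ≤ j ≤ l - 1`, runs over all nonzero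
classes, and there is a non-residue).  `j ≠ 1` since `4` is a square, and `j ≤ l - 1`.  So `1 ≤ j - 1 < l`,
`¬ l ∣ 4 (j - 1)` and `(4 (j - 1) / l) ≠ -1`, so it is `1`.  `t = 4 j`. -/
def NqrStmt : Prop := ∀ (l : ℕ) [Fact l.Prime], l ≠ 2 →
  ∃ t : ℤ, legendreSym l t = -1 ∧ legendreSym l (t - 4) = 1

/-- RES: residue classes (STRONG).  Uses NQR.

Proof.  `T`: Chinese remainder theorem for the values of NQR at the prime divisors of `K` (`K` squarefree, induction on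
`K` or on the set of the prime divisors; `K = 1`: `T = 0`).  `v`: there is `v₀` with `J(v₀ | K) = s` (`s = 1`: `v₀ = 1`;
`s = -1`: `K ≠ 1` has a prime divisor `l`, `v₀ ≡` a non-residue modulo `l`, `v₀ ≡ 1` modulo `K / l`), and
`v ≡ v₀` modulo `K`, `v ≡ c'` modulo 8.  `u`: `w u ≡ T v` modulo `K` (`w` is invertible modulo `K`), `u ≡ c` modulo 8. -/
def ResStmt : Prop := ∀ (K : ℕ) (c c' w s : ℤ), Odd K → Squarefree K → IsCoprime w (K : ℤ) →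
  ((s = 1 ∨ s = -1) ∧ (K = 1 → s = 1)) → ∃ T u v : ℤ, u ≡ c [ZMOD 8] ∧ v ≡ c' [ZMOD 8] ∧
    w * u ≡ T * v [ZMOD K] ∧ IsCoprime v (K : ℤ) ∧ jacobiSym v K = s ∧
    ∀ (l : ℕ) [Fact l.Prime], (l : ℤ) ∣ (K : ℤ) →
      legendreSym l T = -1 ∧ legendreSym l (T - 4) = 1

/-- EXA: primes for recipe A.  Uses RES, `NJ.ANStmt`.

Proof.  `k = ε 2^i K`, `K` odd, squarefree, `i ≤ 1`.  RES with `c = c' = 3`, `w = 2` and `s` such that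
`ε (-1)^i s χ = 1`, `χ = -1` if `K % 4 = 3` and `χ = 1` otherwise; if `K = 1` take `s = 1` (and `ε (-1)^i = 1` if `k ≠ -1, 2`).
`M = 8 K`; `u`, `v` are coprime to `M` (`w u ≡ T v` and `¬ l ∣ T v`), `2 v - u` is coprime to `M`: it is `3` modulo 8, and
`2 (2 v - u) ≡ (4 - T) v` modulo `l ∣ K`.  AN with `a = -1`, `b = 2`: primes `p ≡ u`, `q ≡ v` modulo `M`, `r = 2 q - p`.
`leg`: modulo `l`: `2 p ≡ T q`, so `(2 p q / l) = (T q² / l) = -1`; `4 p r = (2 p) (2 r) ≡ T q (4 - T) q`, so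
`(- p r / l) = (T (T - 4) / l) = -1`.  `(k / q)` for `k ≠ -1, 2`: `(ε / q) (2 / q)^i (K / q) = ε (-1)^i (K / q)`, and
`(K / q) = χ J(q | K) = χ J(v | K) = χ s` (`jacobiSym.quadratic_reciprocity_if`, `q % 4 = 3`). -/
def ExaStmt : Prop := ∀ k : ℤ, Squarefree k → ∀ N : ℕ, ∃ p q r : ℕ, N < p ∧ RA k p q r ∧
  (k ≠ -1 → k ≠ 2 → ∀ [Fact q.Prime], legendreSym q k = 1)

/-- EXB: primes for recipe B.  Uses RES, `NJ.ANStmt`.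

Proof.  `k = ε K`.  RES with `c = 3`, `c' = 5`, `w = -2`, `s = -1` if `K ≠ 1`.  AN with `a = 1`, `b = 2`: `r = p + 2 q`
(`u + 2 v ≡ 13` modulo 8; `-2 (u + 2 v) ≡ (T - 4) v` modulo `l`).  `leg`: `-2 p ≡ T q`: `(-2 p q / l) = (T / l) = -1`;
`4 p r = (-2 p) (-2 r) ≡ T q (T - 4) q`: `(p r / l) = -1`.  `(k / q) = (K / q) = J(q | K) = s = -1` (`q % 4 = 1`). -/
def ExbStmt : Prop := ∀ k : ℤ, Squarefree k → Odd k → ∀ N : ℕ, ∃ p q r : ℕ, N < p ∧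
  RB k p q r ∧ (k ≠ -1 → k ≠ 1 → ∀ [Fact q.Prime], legendreSym q k = -1)

/-- EXC: primes for recipe C.  Uses `NJ.ANStmt`.

Proof.  AN with `a = -1`, `b = 8`, `M = 8`, `u = 3`, `v = 7`. -/
def ExcStmt : Prop := ∀ N : ℕ, ∃ p q r : ℕ, N < p ∧ RC p q r

/-- EXS: primes for recipe S.  Uses RES, `NJ.ANStmt`.

Proof.  (1) `k = K`.  RES with `c = c' = 3`, `w = 8`, `s = χ` (`-1` if `K % 4 = 3`, `1` otherwise).  AN with `a = -2`,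
`b = 1`: `r = q - 2 p` (`v - 2 u ≡ -3` modulo 8, `4 (v - 2 u) ≡ (4 - T) v` modulo `l`).  `leg`: `8 p ≡ T q`:
`(2 p q / l) = (8 p q / l) = -1`; `-32 p r = (8 p) (-4 r) ≡ T q (T - 4) q`: `(-2 p r / l) = -1`.
`(k / q) = (K / q) = χ J(q | K) = 1`.  (2) `k = -K`, `K ≠ 1`.  RES with `c = c' = 5`, `w = 8`, `s = -1`.
`(k / q) = (K / q) = J(q | K) = -1`. -/
def ExsStmt : Prop :=
  (∀ k : ℤ, Squarefree k → Odd k → 0 < k → ∀ N : ℕ, ∃ p q r : ℕ, N < p ∧ RS 3 k p q r ∧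
    ∀ [Fact q.Prime], legendreSym q k = 1) ∧
  (∀ k : ℤ, Squarefree k → Odd k → k < 0 → k ≠ -1 → ∀ N : ℕ, ∃ p q r : ℕ, N < p ∧
    RS 5 k p q r ∧ ∀ [Fact q.Prime], legendreSym q k = -1)

/-! ## Part 4: assembly -/

/-- GDA: good parameters from recipe A.  Uses TRA, SCL, RLA.

Proof.  `t = 2 p / q` is not a square (`2 p q` is not a square), `t (t - 4) = -4 p r / q² < 0`.  (1) `a = k t`, `b = k² t`,
SCL with `m = q`: `a q² = 2 k p q`, `b q⁴ = 2 k² p q³`.  (2) `D = k t`: `a = k t²`, `b = k² t³`, `m = q`: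
`4 k p²`, `8 k² p³ q`.  (3) `D = - t (t - 4)`: `a = - t² (t - 4)`, `b = t³ (t - 4)²`, `t - 4 = -2 r / q`, `m = q² / 2`: `a m² =
2 p² q r`, `b m⁴ = 2 p³ q³ r²`. -/
def GdaStmt : Prop := ∀ (k : ℤ) (p q r : ℕ) [Fact q.Prime], RA k p q r →
  ((k % 4 = 1 ∨ 2 ∣ k) → legendreSym q k = 1 → Gd k (2 * p / q)) ∧
  (Odd k → Gd (k * (2 * p / q)) (2 * p / q)) ∧
  (k = -1 → Gd (-((2 * p / q) * (2 * p / q - 4))) (2 * p / q))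

/-- GDB: good parameters from the recipes B and C.  Uses TRB, SCL, RLB.

Proof.  `t = -2 p / q < 0`, `t (t - 4) = 4 p r / q²` is not a square (`p r` is not a square); `m = q`.
`t = p / (2 q)`: not a square, `t (t - 4) = - p r / (4 q²) < 0`; `D = 2`: `a = 2 t = p / q`, `b = 4 t = 2 p / q`, `m = q`. -/
def GdbStmt : Prop :=
  (∀ (k : ℤ) (p q r : ℕ) [Fact q.Prime], RB k p q r → k % 4 = 3 → legendreSym q k = -1 →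
    Gd k (-(2 * p / q))) ∧
  (∀ p q r : ℕ, RC p q r → Gd 2 (p / (2 * q)))

/-- GDS: good parameters from recipe S.  Uses TRS, SCL, RLS.

Proof.  `t = 8 p / q` is not a square, `t - 4 = -4 r / q`, `t (t - 4) < 0`.  `a = k t² (t - 4) = -256 k p² r / q³`,
`b = k² t³ (t - 4)² = 8192 k² p³ r² / q⁵`, `m = q² / 8`: `a m² = -4 k p² q r`, `b m⁴ = 2 k² p³ q³ r²`. -/
def GdsStmt : Prop :=
  (∀ (k : ℤ) (p q r : ℕ) [Fact q.Prime], RS 3 k p q r → Odd k → 0 < k → legendreSym q k = 1 →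
    Gd (k * (8 * p / q) * (8 * p / q - 4)) (8 * p / q)) ∧
  (∀ (k : ℤ) (p q r : ℕ) [Fact q.Prime], RS 5 k p q r → Odd k → k < 0 → legendreSym q k = -1 →
    Gd (k * (8 * p / q) * (8 * p / q - 4)) (8 * p / q))

/-- ARV: type V.  Uses GDA, GDB, EXA, EXB, EXC, SCL.

Proof.  (0) `k = k₀ c²`, `k₀` a squarefree integer, `c ≠ 0`; `Gd k₀ t → Gd k t` (SCL with `m = c`); `k₀ ≠ -1`.
(1) An infinite set: for all `N` there is a `t` in the set with `|t.num| > N` (`t = 2 p / q`, `-2 p / q`, `p / (2 q)` are in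
lowest terms: `p ≠ q` odd primes).  (2) `k₀ = 2`: EXC, GDB.  `k₀ % 4 = 3`: EXB (`k₀ ≠ -1`; `1 % 4 ≠ 3`), GDB.
Otherwise (`k₀ % 4 = 1` or even, `≠ 2`): EXA, GDA (1). -/
def ArvStmt : Prop := ∀ k : ℚ, k ≠ 0 → ¬ IsSquare (-k) → {t : ℚ | Gd k t}.Infinite

/-- ARU: type U.  Uses GDA, EXA, ISO, SCL.

Proof.  `k = k₀ c²` as in ARV.  `k₀` odd: EXA, GDA (2).  `k₀ = 2 k₁`, `k₁` odd: the infinitely many `t` with
`Gd (-k₁ t) t` (odd case for `- k₁`); ISO with `D = - k₁ t`, `m = 4 / (t - 4)`: `t' = 4 t / (t - 4)`,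
`D' = - m² D (t - 4) / 2 = 8 k₁ t / (t - 4) = 2 k₁ t' = k₀ t'`; the map `t ↦ t'` is injective. -/
def AruStmt : Prop := ∀ k : ℚ, k ≠ 0 → {t : ℚ | Gd (k * t) t}.Infinite

/-- ARW: type W.  Uses ARV, ISO.

Proof.  ARV for `-2 k` (`2 k` is not a square).  ISO with `D = -2 k`, `m = 4 / (t - 4)`: `t' = 4 t / (t - 4)`,
`D' = m² k (t - 4) = 16 k / (t - 4) = k (t' - 4)`. -/
def ArwStmt : Prop := ∀ k : ℚ, k ≠ 0 → ¬ IsSquare (2 * k) → {t : ℚ | Gd (k * (t - 4)) t}.Infinite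

/-- ARS: type S.  Uses GDS, GDA, EXA, EXS, ISO, SCL.

Proof.  `k = k₀ c²`.  `k₀` odd: `k₀ > 0`: EXS (1), GDS (1); `k₀ < 0`, `k₀ ≠ -1`: EXS (2), GDS (2); `k₀ = -1`: EXA, GDA (3).
`k₀ = 2 k₁`: the odd case for `- k₁`, ISO with `D = - k₁ t (t - 4)`, `m = 16 / (t - 4)²`: `t' = 4 t / (t - 4)`,
`t' - 4 = 16 / (t - 4)`, `D' = m² k₁ t (t - 4)² / 2 = 128 k₁ t / (t - 4)² = 2 k₁ t' (t' - 4)`. -/
def ArsStmt : Prop := ∀ k : ℚ, k ≠ 0 → {t : ℚ | Gd (k * t * (t - 4)) t}.Infinite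

/-- FIN: from good parameters to the theorem.  Uses `NJ.GENStmt`, `NJ.RK0Stmt`.

Proof.  For `t` with `Gd (D(t)) t`: the fibre is `⟨0, D(t) t, 0, D(t)² t, 0⟩`, `Δ = 16 D(t)⁶ t³ (t - 4) ≠ 0` (`t ≠ 0, 4`
since `0` is a square), and `NJ.Two (fib (EG D) t)`: `Y² = X (X² + D(t) t X + D(t)² t)`, so `Y = 0`.  `(EG D).Δ ≠ 0` (a
fibre has `Δ ≠ 0`).  GEN: `NJ.Two (gen (EG D))`; RK0 for the generic fibre and for the fibres. -/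
def FinStmt : Prop := ∀ D : ℚ[X], {t : ℚ | Gd (D.eval t) t}.Infinite →
  rk (gen (EG D)) = 0 ∧ (nonJumping (EG D)).Infinite

/-- The theorem of rank zero. -/
def Main0Stmt : Prop := ∀ k : ℚ, k ≠ 0 →
  ((¬ IsSquare (-k)) → rk (gen (EG (C k))) = 0 ∧ (nonJumping (EG (C k))).Infinite) ∧
  (rk (gen (EG (C k * X))) = 0 ∧ (nonJumping (EG (C k * X))).Infinite) ∧
  ((¬ IsSquare (2 * k)) → rk (gen (EG (C k * (X - C 4)))) = 0 ∧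
    (nonJumping (EG (C k * (X - C 4)))).Infinite) ∧
  (rk (gen (EG (C k * X * (X - C 4)))) = 0 ∧ (nonJumping (EG (C k * X * (X - C 4)))).Infinite)

/-- MN0: assembly.  Uses FIN, ARV, ARU, ARW, ARS. -/
theorem main0_of (fin : FinStmt) (arv : ArvStmt) (aru : AruStmt) (arw : ArwStmt) (ars : ArsStmt) :
    Main0Stmt := by
  intro k hk
  refine ⟨fun h => fin _ ?_, fin _ ?_, fun h => fin _ ?_, fin _ ?_⟩
  · simpa using arv k hk h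
  · simpa using aru k hk
  · simpa using arw k hk h
  · simpa using ars k hk

end

end Pool.Agent.G02
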