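import Pool.Agent.G02.DefsR
import Pool.Agent.G02.Stmts
import Pool.Agent.GT.StmtsF

/-!
# Squad G02 (MP_ba5221_nt), part 2: statements

All rows are independent: the statements of the rows in `uses` are hypotheses `(h : XxxStmt)`. Complete
proofs are in the docstrings.  Notation: `W` has a root `e` of the 2-division polynomial (`Rt1 W e a b`); for a
point `(x, y)` put `X = x - e`, `Y = (2 y + a₁ x + a₃) / 2`; then `Y² = X (X² + a X + b)`, because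
`(2 y + a₁ x + a₃)² = 4 x³ + b₂ x² + 2 b₄ x + b₆`.  Proved rows of squad GT (`Pool.Agent.GT.F`, `Pool.Agent.GT.D`) and of
squad NJ may be used as hypotheses: `GT.F.SpStmt`, `GT.F.DivStmt`, `GT.F.AlgStmt`, `GT.F.FgStmt`, `GT.F.EvlStmt`,
`GT.F.TorStmt`, `GT.D.SqpStmt`, `NJ.PLCStmt`.
-/

set_option autoImplicit false

namespace Pool.Agent.G02

open Polynomial Pool.Agent.NJ Pool.Agent.GT.F

noncomputable section

/-! ## Block R: points -/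

/-- DLT: the discriminant.

Proof.  `4 Δ = - b₂² (4 b₈) - 32 b₄³ - 108 b₆² + 36 b₂ b₄ b₆`, `4 b₈ = b₂ b₆ - b₄²` (`WeierstrassCurve.b_relation`), insert the
three equations, cancel `4` (as `Pool.Agent.GT.OF.H84.disc`, file Helper84_GT/E_PLR.lean). -/
def DltStmt : Prop := ∀ (R : Type) [CommRing R] [IsDomain R] [CharZero R]
  (W : WeierstrassCurve R) (e a b : R), Rt1 W e a b → W.Δ = 16 * b ^ 2 * (a ^ 2 - 4 * b)

/-- TR2: the points of order two.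

Proof.  `P + P = 0` iff `P = -P` iff `P = 0` or `2 y + a₁ x + a₃ = 0`, i.e. `Y = 0`, `X (X² + a X + b) = 0`, i.e. `X = 0`
(`X² + a X + b = 0` would give `(2 X + a)² = a² - 4 b`).  For `x = e` there is exactly one point,
`y = - (a₁ e + a₃) / 2`; it is nonsingular, as the derivative of `X (X² + a X + b)` at `0` is `b ≠ 0`.  (As F_TOR,
Helper77_GT/F_TOR.lean.) -/
def Tr2Stmt : Prop := ∀ (K : Type) [Field K] [CharZero K] [DecidableEq K]
  (W : WeierstrassCurve K) (e a b : K), Rt1 W e a b → b ≠ 0 → ¬ IsSquare (a ^ 2 - 4 * b) →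
  (∀ P : W.toAffine.Point, P + P = 0 ↔
    P = 0 ∨ ∃ (y : K) (h : W.toAffine.Nonsingular e y), P = .some e y h) ∧
  (∃ y : K, W.toAffine.Nonsingular e y ∧ 2 * y + W.a₁ * e + W.a₃ = 0 ∧
    ∀ y', W.toAffine.Nonsingular e y' → y' = y) ∧
  Nat.card {P : W.toAffine.Point // P + P = 0} = 2

/-- AD1: the class of a sum at the root `e` (STRONG).

Proof (as F_ADD, Helper52_GT/F_ADD.lean; there three roots are given, only the one root is used).  `P = 0` or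
`Q = 0`: clear.  `P + Q = 0`: `P` and `Q` have the same `x`, so `c w` and `d w` are squares with the same `w ≠ 0`.
Otherwise `P = (x₁, y₁)`, `Q = (x₂, y₂)`, `P + Q = (x₃, y₃)`, `l` the slope, `L(x) = l (x - x₁) + y₁`:
`(x - x₁) (x - x₂) (x - x₃) = x³ + a₂ x² + a₄ x + a₆ - L² - (a₁ x + a₃) L`; at `x = e`, where `4 (x³ + a₂ x² + a₄ x + a₆) =
- (a₁ x + a₃)²`: `4 (e - x₁) (e - x₂) (e - x₃) = - (2 L(e) + a₁ e + a₃)²`.  So `(x₁ - e) (x₂ - e) (x₃ - e)` is a square: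
the claim if `x₁, x₂, x₃ ≠ e`.  If `x₁ = e`, `x₂ ≠ e`: `2 l + a₁ = (2 y₂ + a₁ x₂ + a₃) / (x₂ - e)`, and
`4 x₃ = (2 l + a₁)² - b₂ - 4 x₁ - 4 x₂` gives `(x₃ - e) (x₂ - e) = b`: the claim, `x₃ ≠ e`.  The same if `x₂ = e ≠ x₁`.
`x₁ = x₂ = e`: then `Q = P = -P` and `P + Q = 0`.  If `x₃ = e`, `x₁, x₂ ≠ e`: `P = T + (-Q)` with `T = P + Q` the point over
`e`, so `(x₁ - e) (x₂ - e) = b` by the case before. -/
def Ad1Stmt : Prop := ∀ (K : Type) [Field K] [CharZero K] [DecidableEq K]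
  (W : WeierstrassCurve K) (e a b : K), Rt1 W e a b → b ≠ 0 → a ^ 2 - 4 * b ≠ 0 →
  ∀ (c d : K) (P Q : W.toAffine.Point), c ≠ 0 → d ≠ 0 → D0 W e b c P → D0 W e b d Q →
    D0 W e b (c * d) (P + Q)

/-- ADL: the class of a sum at an irrational root.

Proof.  `P = 0`, `Q = 0` or `P + Q = 0`: clear (`x - ρ ≠ 0`, because `ρ` is not in `ℚ`).  Otherwise as in AD1 (the
first part only): `(x₁ - ρ) (x₂ - ρ) (x₃ - ρ) = ((2 L(ρ) + a₁ ρ + a₃) / 2)²` in `L`, all `x_i` are rational, so all factors are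
nonzero. -/
def AdlStmt : Prop := ∀ [DecidableEq ℚ] (W : WeierstrassCurve ℚ) (L : Type) [Field L] [CharZero L]
  [Algebra ℚ L] (ρ : L), (∀ c : ℚ, ρ ≠ algebraMap ℚ L c) →
  4 * ρ ^ 3 + algebraMap ℚ L W.b₂ * ρ ^ 2 + 2 * algebraMap ℚ L W.b₄ * ρ + algebraMap ℚ L W.b₆ = 0 →
  ∀ (c d : ℚ) (P Q : W.toAffine.Point), c ≠ 0 → d ≠ 0 → DL W ρ c P → DL W ρ d Q →
    DL W ρ (c * d) (P + Q)

/-- HD1: a double, first part: a point with `X = s²` and `a + 2 s² + 2 Y / s` a square is a double (STRONG).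

Proof.  `z = a + 2 s² + 2 Y / s = r²`; `z (2 a + 4 s² - z) = a² - 4 b ≠ 0` (as `Y² = s² (s⁴ + a s² + b)`), so `r ≠ 0` and
`r⁴ - 2 a r² + a² - 4 b = 4 s² r²`.  `X₁ = (r² - a + 2 s r) / 2`, `Y₁ = r X₁`: `X₁² - (r² - a) X₁ + b = 0`, so
`Y₁² = X₁ (X₁² + a X₁ + b)`, `X₁ ≠ 0`, `Y₁ ≠ 0`, `X₁² - b = 2 s Y₁`.  `Q = (e + X₁, (2 Y₁ - a₁ (e + X₁) - a₃) / 2)` is a
nonsingular point (`Y₁ ≠ 0`).  The slope `l` of the tangent: `2 l + a₁ = F'(X₁) / Y₁`, `F = X³ + a X² + b X`, so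
`4 x(2 Q) = (2 l + a₁)² - b₂ - 8 (e + X₁)`, i.e. `X(2 Q) = F'(X₁)² / (4 Y₁²) - a - 2 X₁ = (X₁² - b)² / (4 Y₁²) = s²`.  So
`2 Q = P` or `2 Q = - P = 2 (-(Q))..`: the points with the same `x` are `P` and `- P` (`WeierstrassCurve.Affine.Y_eq_of_X_eq`),
and `- (2 Q) = (-Q) + (-Q)`.  (As F_KER, Helper3_GT/F_KER.lean.) -/
def Hd1Stmt : Prop := ∀ (K : Type) [Field K] [CharZero K] [DecidableEq K]
  (W : WeierstrassCurve K) (e a b : K), Rt1 W e a b → b ≠ 0 → a ^ 2 - 4 * b ≠ 0 →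
  ∀ (x y s : K) (h : W.toAffine.Nonsingular x y), s ≠ 0 → x - e = s ^ 2 →
    IsSquare (a + 2 * s ^ 2 + (2 * y + W.a₁ * x + W.a₃) / s) →
    ∃ Q : W.toAffine.Point, WeierstrassCurve.Affine.Point.some x y h = Q + Q

/-- HD2: a double, second part.

Proof.  `Q = 0` gives `0`.  `Q = (x₁, y₁)`, `X₁ = x₁ - e`, `Y₁ = (2 y₁ + a₁ x₁ + a₃) / 2`; `Y₁ ≠ 0` (else `2 Q = 0`).  As in
HD1: `X(2 Q) = ((X₁² - b) / (2 Y₁))²`.  (1) `X(2 Q) = 0`: `X₁² = b`.  (2) `X(2 Q) ≠ 0`: `s₀ = (X₁² - b) / (2 Y₁) ≠ 0`,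
`X₁ ≠ 0`; `r = Y₁ / X₁`, `r² = X₁ + a + b / X₁`, `2 s₀ r = X₁ - b / X₁`, so `(r² - a)² - 4 b = (2 s₀ r)²`, so `z = r²` is a root of
`z² - (2 a + 4 s₀²) z + a² - 4 b`, whose roots are `a + 2 s₀² ± 2 Y / s₀` (`Y` the one of `2 Q`; their sum and product are
right).  Take `s = s₀` or `s = - s₀`. -/
def Hd2Stmt : Prop := ∀ (K : Type) [Field K] [CharZero K] [DecidableEq K]
  (W : WeierstrassCurve K) (e a b : K), Rt1 W e a b → b ≠ 0 → a ^ 2 - 4 * b ≠ 0 →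
  ∀ (x y : K) (h : W.toAffine.Nonsingular x y) (Q : W.toAffine.Point),
    WeierstrassCurve.Affine.Point.some x y h = Q + Q →
    (x = e → IsSquare b) ∧
    (x ≠ e → ∃ s : K, s ≠ 0 ∧ x - e = s ^ 2 ∧
      IsSquare (a + 2 * s ^ 2 + (2 * y + W.a₁ * x + W.a₃) / s))

/-- QUA: quadratic fields.

Proof.  `X² - m` is irreducible; `L = AdjoinRoot (X² - C m)` (or a subfield of `ℂ`), `β` the root.  Each element of
`L` is `u + v β`, `u, v` rational, uniquely.  If `c = (u + v β)²` then `2 u v = 0`: `c = u²`, or `c = v² m` and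
`c m = (v m)²`. -/
def QuaStmt : Prop := ∀ m : ℚ, ¬ IsSquare m → ∃ (L : Type) (_ : Field L) (_ : CharZero L)
  (_ : Algebra ℚ L) (β : L), Qu m L β

/-- SEC: the second class.

Proof.  `Y² = s² (s⁴ + a s² + b)`, `z = a + 2 s² + 2 Y / s`, `z' = a + 2 s² - 2 Y / s`, `z z' = a² - 4 b = m ≠ 0`.
`(2 s z)² = z (z² - 2 a z + m)` because `z² - 2 a z + m = z (z - 2 a + z') = 4 s² z`.  `x - ρ = s² + (a - β) / 2`, and
`(z - β)² = z (z + z' - 2 β) = 4 z (x - ρ)`, `z ≠ β`, so `z (x - ρ)` is a nonzero square in `L`; so `c (x - ρ)` is a square iff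
`c z` is one. -/
def SecStmt : Prop := ∀ (W : WeierstrassCurve ℚ) (e a b : ℚ), Rt1 W e a b →
  ∀ (L : Type) [Field L] [CharZero L] [Algebra ℚ L] (β : L), Qu (a ^ 2 - 4 * b) L β →
  ∀ (x y s : ℚ) (h : W.toAffine.Nonsingular x y), s ≠ 0 → x - e = s ^ 2 →
  ∀ z : ℚ, z = a + 2 * s ^ 2 + (2 * y + W.a₁ * x + W.a₃) / s →
    z ≠ 0 ∧ (2 * s * z) ^ 2 = z * (z ^ 2 + (-2 * a) * z + (a ^ 2 - 4 * b)) ∧
    ∀ c : ℚ, DL W (algebraMap ℚ L e + (β - algebraMap ℚ L a) / 2) c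
        (WeierstrassCurve.Affine.Point.some x y h) ↔
      IsSquare (algebraMap ℚ L (c * z))

/-- CL2: second classes of points whose first class is trivial.  Uses SEC.

Proof.  `P = 0`: `c = 1`.  `P = (x, y)`: `x ≠ e`, else `1 * b` is a square.  `x - e = s²`, `s ≠ 0`, `z` as in SEC, `(z, 2 s z)`
is a point of `E(-2 a, a² - 4 b)`, so there is a `c ∈ S` such that `c z` or `c (a² - 4 b) z` is a square; in both cases
`c z` is a square in `L` (`a² - 4 b = β²`, `β ≠ 0`). -/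
def Cl2Stmt : Prop := ∀ (W : WeierstrassCurve ℚ) (e a b : ℚ), Rt1 W e a b → ¬ IsSquare b →
  ∀ (S : Set ℚ), Cl (-2 * a) (a ^ 2 - 4 * b) S → (1 : ℚ) ∈ S →
  ∀ (L : Type) [Field L] [CharZero L] [Algebra ℚ L] (β : L), Qu (a ^ 2 - 4 * b) L β →
  ∀ P : W.toAffine.Point, D0 W e b 1 P →
    ∃ c ∈ S, DL W (algebraMap ℚ L e + (β - algebraMap ℚ L a) / 2) c P

/-- DB2: points with both classes trivial are doubles.  Uses SEC, HD1.

Proof.  `P = 0 = 0 + 0`.  `P = (x, y)`: `x ≠ e` (`b` is not a square), `x - e = s²`, `s ≠ 0`, `z` as in SEC; `z` is a square in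
`L`, so `z` or `z (a² - 4 b)` is a square in `ℚ`.  First case: HD1.  Second case: `z' = (a² - 4 b) / z` is a square, and it
is the `z` of `- s`: HD1 with `- s`. -/
def Db2Stmt : Prop := ∀ [DecidableEq ℚ] (W : WeierstrassCurve ℚ) (e a b : ℚ), Rt1 W e a b →
  b ≠ 0 → ¬ IsSquare b →
  ∀ (L : Type) [Field L] [CharZero L] [Algebra ℚ L] (β : L), Qu (a ^ 2 - 4 * b) L β →
  ∀ P : W.toAffine.Point, D0 W e b 1 P →
    DL W (algebraMap ℚ L e + (β - algebraMap ℚ L a) / 2) 1 P → ∃ Q, P = Q + Q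

/-- IXQ: the order of `W(ℚ) / 2` (STRONG, combinatorial).  Uses AD1, ADL, QUA, CL2, DB2.

Proof.  `L`, `β` from QUA for `a² - 4 b`, `ρ = e + (β - a) / 2` (a root of the 2-division polynomial, not rational).
First class: each `P` has a `c₁(P)` in the set `C = S ∪ b S` (at most `2 |S|` elements) with `D0 W e b (c₁(P)) P`: for
`P = 0` it is `1`, for `x = e` it is `b`, otherwise `Cl`.  Let `Σ` be a finite set of points which are pairwise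
incongruent modulo doubles.  For each value `c ∈ c₁(Σ)` choose `P_c ∈ Σ` with this value.  For `P ∈ Σ` with
`c₁(P) = c`: `R(P) = P - P_c` has `D0 (c c)`, so `D0 1` (AD1; `D0` of `- P` is that of `P`; a square factor may be
removed), and CL2 gives `c₂(P) ∈ S'` with `DL ρ (c₂(P)) (R(P))`.  If `c₁, c₂` agree for `P, P' ∈ Σ`, then
`P - P' = R(P) - R(P')` has `D0 1` and `DL ρ 1` (AD1, ADL), so it is a double (DB2) and `P = P'`.  So `Σ` injects into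
`C × S'`. -/
def IxqStmt : Prop := ∀ [DecidableEq ℚ] (W : WeierstrassCurve ℚ) (e a b : ℚ), Rt1 W e a b →
  b ≠ 0 → ¬ IsSquare b → ¬ IsSquare (a ^ 2 - 4 * b) → ∀ S S' : Finset ℚ,
  (1 : ℚ) ∈ S → (1 : ℚ) ∈ S' → (0 : ℚ) ∉ S → (0 : ℚ) ∉ S' → Cl a b (S : Set ℚ) →
  Cl (-2 * a) (a ^ 2 - 4 * b) (S' : Set ℚ) → Ix W.toAffine.Point (2 * (S.card * S'.card))

/-- RK2: the rank of a finitely generated group (copy of F_RNK, Helper30_GT/F_RNK.lean, with `2` for `4`).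

Proof.  `A` is isomorphic to `ℤ^r × F`, `F` finite, `F` has 2 elements with `2 a = 0`, so `F / 2 F` has 2 elements and
`A / 2 A` has `2^r · 2`: `2^r · 2 ≤ 2 · 2^R`. -/
def Rk2Stmt : Prop := ∀ (A : Type) [AddCommGroup A], AddGroup.FG A →
  Nat.card {a : A // a + a = 0} = 2 → ∀ R : ℕ, Ix A (2 * 2 ^ R) → Module.rank ℤ A ≤ R

/-- SCC: scaling of classes.

Proof.  Points correspond by `x = m² x'`, `y = m³ y'`; the classes do not change (`(b m⁴) x = b x' m⁶`).  Second part: the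
first part with `m = 2`: `-2 (-2 a) = a 2²`, `(-2 a)² - 4 (a² - 4 b) = b 2⁴`. -/
def SccStmt : Prop := (∀ (a b m : ℚ) (S : Set ℚ), m ≠ 0 →
    (Cl (a * m ^ 2) (b * m ^ 4) S ↔ Cl a b S)) ∧
  ∀ (a b : ℚ) (S : Set ℚ), Cl (-2 * (-2 * a)) ((-2 * a) ^ 2 - 4 * (a ^ 2 - 4 * b)) S ↔ Cl a b S

/-- CLG: the classes over `ℚ(T)` (STRONG).  Uses `GT.D.SqpStmt`.

Proof.  (1) `q = x.num * x.denom`.  For `t ∈ ℂ` let `v` be the multiplicity in the numerator minus that in the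
denominator (extended to `ℂ`).  Claim: if `Gt a b t` then `v(x)` is even.  `v(b) = 4 m`, `v(a) ≥ 2 m` (or `a = 0`).  If
`v(x) < 2 m`: `v(x²) = 2 v(x) < v(a x), v(b)`, so `v(y²) = 3 v(x)`, `v(x)` is even.  If `v(x) > 2 m`: `v(a x) > 4 m`,
`v(x² + a x + b) = 4 m`, `v(y²) = v(x) + 4 m`, so `v(x)` is even.  So the odd multiplicities of `q` are at `t = c`,
`c ∈ B`; `GT.D.SqpStmt`: `q = k s² ∏_(c ∈ R) (T - c)`, the elements of `R` have odd multiplicity, so `R ⊆ B`; `q x = x.num²`.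
(2) (1) for `(-2 a, a² - 4 b)`: `Gt` is the same condition (`(-2 a)² - 4 (a² - 4 b) = 16 b`).  (3) As in (1) with
`q = b`, `q = a² - 4 b` (multiplicity `4 m` outside of `B`).  (As F_CLS, Helper31_GT/F_CLS.lean.) -/
def ClgStmt : Prop := ∀ (a b : ℚ[X]) (B : Finset ℚ), b ≠ 0 → a ^ 2 - 4 * b ≠ 0 →
  (∀ t : ℂ, ¬ Gt a b t → ∃ c ∈ B, t = (c : ℂ)) →
  (∀ x y : RatFunc ℚ, x ≠ 0 → y ^ 2 = x * (x ^ 2 + algebraMap ℚ[X] (RatFunc ℚ) a * x +
      algebraMap ℚ[X] (RatFunc ℚ) b) → ∃ (k : ℚ) (R : Finset ℚ), k ≠ 0 ∧ R ⊆ B ∧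
        IsSquare (pr k R * x)) ∧
  (∀ x y : RatFunc ℚ, x ≠ 0 → y ^ 2 = x * (x ^ 2 + (-2 * algebraMap ℚ[X] (RatFunc ℚ) a) * x +
      (algebraMap ℚ[X] (RatFunc ℚ) a ^ 2 - 4 * algebraMap ℚ[X] (RatFunc ℚ) b)) →
      ∃ (k : ℚ) (R : Finset ℚ), k ≠ 0 ∧ R ⊆ B ∧ IsSquare (pr k R * x)) ∧
  (∃ (k : ℚ) (R : Finset ℚ), k ≠ 0 ∧ R ⊆ B ∧
    IsSquare (pr k R * algebraMap ℚ[X] (RatFunc ℚ) b)) ∧
  (∃ (k : ℚ) (R : Finset ℚ), k ≠ 0 ∧ R ⊆ B ∧
    IsSquare (pr k R * algebraMap ℚ[X] (RatFunc ℚ) (a ^ 2 - 4 * b)))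

/-- SQE: squares at `t`.  Uses `GT.F.EvlStmt`.

Proof.  `pr k R * f = g²`, `g ≠ 0` (`f ≠ 0`).  `n` = larger than all the primes of the numerator and of the denominator
of `k`, `Z` = `B` and the exceptional sets of EVL (4) for `f` and `g`.  For `t ∉ Z`: `k ∏_(c ∈ R) (t - c) f(t) = g(t)²`, all
factors nonzero.  If `f(t)` is a square, then `k ∏ (t - c)` is a square.  If `R` has an element `c`: the prime `p` of
`Sep` has the valuation `v_p(k) + ∑ v_p(t - c') = v_p(t - c)`, odd: contradiction.  So `R = ∅` and `k` is a square, so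
`f = g² / k` is a square. -/
def SqeStmt : Prop := ∀ (B : Finset ℚ) (f : RatFunc ℚ) (k : ℚ) (R : Finset ℚ), f ≠ 0 → k ≠ 0 →
  R ⊆ B → IsSquare (pr k R * f) → ¬ IsSquare f → ∃ (n : ℕ) (Z : Finset ℚ), ∀ t : ℚ, t ∉ Z →
    Sep B t n → f.denom.eval t ≠ 0 ∧ ¬ IsSquare (ev t f)

/-- NSQ: a point which is not a double stays not a double (STRONG).  Uses HD1, HD2, CLG, SQE, `GT.F.EvlStmt`.

Proof.  `P ≠ 0` since `0 = 0 + 0`; `P = (x, y)`.  `W = gen E` has `Rt1` with the images of `e, a, b`, and `fib E t` has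
`Rt1` with `e(t), a(t), b(t)`.  `Z` contains the exceptional sets of EVL for all the functions which occur (and the
zeros of the nonzero ones).  For `t ∉ Z`: `sp P = (x(t), y(t))`.
(A) `x = e`: `b` is not a square in `ℚ(T)` (`ℚ[T]` is integrally closed); CLG (3), SQE for `f = b`: `b(t)` is not a
square, HD2 (first part) for `fib E t`.
(B) `X = x - e ≠ 0` is not a square: CLG (1), SQE for `f = X`: `X(t) ≠ 0` is not a square; HD2.
(C) `X = s²`, `s ≠ 0`: by HD1 (with `s` and `- s`) `z = a + 2 s² + 2 Y / s` and `z' = a + 2 s² - 2 Y / s` are not squares;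
`z z' = a² - 4 b ≠ 0`; `(z, 2 s z)` and `(z', - 2 s z')` satisfy the equation of CLG (2); SQE for `f = z`, `f = z'`: `z(t)` and
`z'(t)` are not squares.  If `sp P = Q + Q`: HD2 gives `s₁` with `s₁² = s(t)²`, `s₁ = ± s(t)`, and `z(t)` or `z'(t)` is a
square: contradiction. -/
def NsqStmt : Prop := ∀ [DecidableEq ℚ] [DecidableEq (RatFunc ℚ)] (E : WeierstrassCurve ℚ[X])
  (e a b : ℚ[X]) (B : Finset ℚ), E.Δ ≠ 0 → Rt1 E e a b → b ≠ 0 → a ^ 2 - 4 * b ≠ 0 →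
  ¬ IsSquare b → (∀ t : ℂ, ¬ Gt a b t → ∃ c ∈ B, t = (c : ℂ)) →
  ∀ P : (gen E).toAffine.Point, (¬ ∃ Q, P = Q + Q) → ∃ (n : ℕ) (Z : Finset ℚ),
    ∀ t : ℚ, t ∉ Z → Sep B t n → ∀ sp : (gen E).toAffine.Point →+ (fib E t).toAffine.Point,
      IsSp E t sp → ¬ ∃ Q, sp P = Q + Q

/-- TOP: the rank of the generic fibre and of infinitely many fibres (STRONG; copy of F_TOP,
Helper34_GT/F_TOP.lean).  Uses TR2, RK2, NSQ, `GT.F.FgStmt`, `GT.F.SpStmt`, `GT.F.DivStmt`, `GT.F.AlgStmt`.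

Proof.  As F_TOP: (a) `Ix A (2 · 2^R)` for `A` = the points of `gen E`; (b) a maximal finite set of pairwise incongruent
elements, NSQ for its elements which are not doubles: if `sp P = Q + Q` then `P` is a double; (c) the 2-torsion of the
fibre is `0` and the point over `e(t)` (TR2, `a(t)² - 4 b(t)` is not a square), the image of the point over `e`
(TR2 for `gen E`: `a² - 4 b` is not a square in `ℚ(T)`, as its value at some good `t` is not a square); (d) ALG with DIV: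
`rk (gen E) ≤ rk (fib E t)`; FG, TR2, RK2: `rk (fib E t) ≤ R`. -/
def TopStmt : Prop := ∀ (E : WeierstrassCurve ℚ[X]) (e a b : ℚ[X]) (B : Finset ℚ), E.Δ ≠ 0 →
  Rt1 E e a b → b ≠ 0 → a ^ 2 - 4 * b ≠ 0 → ¬ IsSquare b →
  (∀ t : ℂ, ¬ Gt a b t → ∃ c ∈ B, t = (c : ℂ)) →
  ∀ R : ℕ, (∀ n : ℕ, {t : ℚ | (fib E t).Δ ≠ 0 ∧ ¬ IsSquare ((a ^ 2 - 4 * b).eval t) ∧
      Ix (fib E t).toAffine.Point (2 * 2 ^ R) ∧ Sep B t n}.Infinite) →
    (R : Cardinal) ≤ rk (gen E) → rk (gen E) = R ∧ (nonJumping E).Infinite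

/-- RKL: a point of infinite order.  Uses `GT.F.SpStmt`.

Proof.  `sp` from SP.  `n P = 0` gives `n sp(P) = 0`.  So `P` has infinite order and `Module.rank ≥ 1`.  (`rk` uses the
classical instance of `DecidableEq`; `Ix` and the group do not depend on the instance: `Subsingleton`.) -/
def RklStmt : Prop := ∀ [DecidableEq ℚ] [DecidableEq (RatFunc ℚ)] (E : WeierstrassCurve ℚ[X])
  (t : ℚ) (P : (gen E).toAffine.Point), (fib E t).Δ ≠ 0 →
  (∀ sp : (gen E).toAffine.Point →+ (fib E t).toAffine.Point, IsSp E t sp →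
    ∀ n : ℕ, 0 < n → n • sp P ≠ 0) → 1 ≤ rk (gen E)

/-- NTD: points of infinite order by 2-adic size.

Proof.  For a point `Q = (x, y)` of `W` put `x' = (x - e) / m²`, `y' = Y / m³`: a point of `E(a, b)`.  If `y' ≠ 0`, then
`Q + Q` has `x'(2 Q) = (x'² - b)² / (4 y'²)` (see HD1), so by `Dbl` `v(x'(2 Q)) < 0`, and `= v(x') - 2` if `v(x') < 0`.  If
`v(x') < 0` then `y' ≠ 0`: otherwise `x' = 0` (no) or `x'² + a x' + b = 0`, which has no solution with `v(x') < 0`.  So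
for `P_k = 2^(k + 1) P` all `P_k ≠ 0` and `v(x'(P_k))` is strictly decreasing; so the `P_k` are pairwise different, and
`n P ≠ 0` for `n > 0` (otherwise the multiples of `P` are finitely many). -/
def NtdStmt : Prop := ∀ [DecidableEq ℚ] (W : WeierstrassCurve ℚ) (e m : ℚ) (a b : ℤ), m ≠ 0 →
  Rt1 W e (a * m ^ 2) (b * m ^ 4) → b ≠ 0 → a ^ 2 - 4 * b ≠ 0 → Dbl a b →
  ∀ (x y : ℚ) (h : W.toAffine.Nonsingular x y), 2 * y + W.a₁ * x + W.a₃ ≠ 0 →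
    ∀ n : ℕ, 0 < n → n • (WeierstrassCurve.Affine.Point.some x y h : W.toAffine.Point) ≠ 0

/-- VR2: recipe B for `k = -1`, the curve `V'`.  Uses SUB, RLB, LA, LE, REA, `NJ.SQFStmt`.

Proof.  `a = -4 p q`, `b = 4 p q² r`, `a² - 4 b = -32 p q³ < 0` (`r = p + 2 q`), `b > 0`: `d > 0`.  SUB with `k = -1` (the
second curve), SQF: `d = 2^i q^j r^h`.  `s = (q / p)`, `(r / p) = -s`, `(p / q) = (r / q) = s`, `(2 / p) = (2 / q) = -1`,
`(-1 / q) = 1`.  LA at `p`: `(-1)^i s^j (-s)^h = 1`.  LE at `q`: `a₁ = -4 p`, `b₁ = 4 p r`, `c₁ = -32 p`: `j = 0`: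
`(d / q) = (-1)^i s^h = 1`, so `(-1)^h = 1`: `h = 0`, `i = 0`, `d = 1`.  `j = 1`, `d = q d₁`: `(-c₁ d₁ / q) = 1`,
`(32 p / q) = -s`, so `(d₁ / q) = (-1)^i s^h = -s`, and `(-1)^i s (-s)^h = 1`: the product gives `(-1)^h s^(2 h + 1) = -s`,
so `h = 1`, and then `(-1)^i = -1`: `d = 2 q r`. -/
def Vr2Stmt : Prop := ∀ p q r : ℕ, RB (-1) p q r → ∀ d M e N B : ℤ,
  Qt (-(4 * p * q)) (4 * p * q ^ 2 * r) d M e N B → ¬ (p : ℤ) ∣ d → d = 1 ∨ d = 2 * q * r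

/-- R1F: the classes of the fibres of rank one.  Uses NRM, VB1, VR2, SCC.

Proof.  `τ = -2 p / q`.  VB1 for `k = -1`: the curve is `(2 p q, -2 p q³)`, NRM with the prime `p`, SCC with `m = q`:
`- τ q² = 2 p q`, `τ q⁴ = -2 p q³`.  VR2 (`-4 p q`, `4 p q² r`), NRM, SCC with `m = q`: `2 τ q² = -4 p q`,
`(τ² - 4 τ) q⁴ = 4 p q² (p + 2 q)`. -/
def R1fStmt : Prop := ∀ p q r : ℕ, RB (-1) p q r →
  Cl (-(-(2 * p / q))) (-(2 * p / q)) {1} ∧
  Cl (2 * (-(2 * p / q))) ((-(2 * p / q)) ^ 2 - 4 * (-(2 * p / q)))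
    ({1, 2 * (q : ℚ) * r} : Set ℚ)

/-- EX1: primes for rank one.  Uses `NJ.ANStmt`.

Proof.  AN with `a = 1`, `b = 2`, `M = 8`, `u = 3`, `v = 5`; `k = -1` has no odd prime divisors. -/
def Ex1Stmt : Prop := ∀ N : ℕ, ∃ p q r : ℕ, N < p ∧ N < q ∧ RB (-1) p q r

/-- PRB: parameters of rank one.  Uses EX1.

Proof.  `τ = -2 p / q < 0`, `τ - 4 = -2 r / q`, `τ (τ - 4) = 4 p r / q²` is not a square; `v_p(τ) = 1`, `v_r(τ - 4) = 1`,
`v_q(τ) = -1`; `r > q`.  `τ' = 4 τ / (τ - 4) = 4 p / r`, `τ' - 4 = -8 q / r`: `v_p(τ') = 1`, `v_q(τ' - 4) = 1`,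
`v_r(τ') = -1`. -/
def PrbStmt : Prop := ∀ n : ℕ, ∃ p q r : ℕ, n < p ∧ n < q ∧ n < r ∧ RB (-1) p q r ∧
  Sp3 (-(2 * p / q)) n ∧ Sp3 (4 * p / r) n ∧ (-(2 * p / q) : ℚ) - 4 = -(2 * r / q)

end

end Pool.Agent.G02
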