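import Pool.Agent.G02.StmtsR

/-!
# Squad G02 (MP_ba5221_nt), part 3: the families of rank one, and the structure of the curves. Statements

All rows are independent: the statements of the rows in `uses` are hypotheses `(h : XxxStmt)`. Complete
proofs are in the docstrings.  `l = x / y` is the Möbius function `lam x y`, `w = x - 4 y`.
-/

set_option autoImplicit false

namespace Pool.Agent.G02

open Polynomial Pool.Agent.NJ Pool.Agent.GT.F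

noncomputable section

open Classical in
/-- There is a point of order two. -/
def HasTwo {F : Type} [Field F] (W : WeierstrassCurve F) : Prop :=
  ∃ P : W.toAffine.Point, P ≠ 0 ∧ 2 • P = 0

/-! ## Block M: parameters -/

/-- GTB: the bad places of a curve of type 1.

Proof.  Let `t ∈ ℂ`, `(x y w)(t) ≠ 0`.  Let `v` be the order at `t` (of functions in `ℂ(T)`; for polynomials the
multiplicity).  `v(l) = v(l - 4) = 0`, `D = k m² l^i (l - 4)^j`, `v(D) = 2 v(m)`, `a = D l`, `b = D² l`,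
`a² - 4 b = D² l (l - 4)`: `v(a) = 2 v(m)`, `v(b) = v(a² - 4 b) = 4 v(m) ≥ 0`: `Gt`.  The roots of `x`, `y`, `w` are
rational (degree at most one). -/
def GtbStmt : Prop := ∀ (a b x y : ℚ[X]) (k : ℚ) (m : RatFunc ℚ) (i j : ℕ),
  Ty1 a b x y k m i j → ∀ B : Finset ℚ, (∀ c : ℚ, c ∈ B ↔ (x * y * (x - 4 * y)).eval c = 0) →
    ∀ t : ℂ, ¬ Gt a b t → ∃ c ∈ B, t = (c : ℂ)

/-- NSB: nonvanishing.

Proof.  `l ≠ 0`, `l ≠ 4` (`x`, `y` are coprime and not both constant).  If `b = D² l` were a square, then `l = x / y` would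
be a square in `ℚ(T)`, `x y` a square in `ℚ[T]`; but `x y` has a simple root (degree 1 or 2, coprime factors of
degree at most 1, not both constant). -/
def NsbStmt : Prop := ∀ (a b x y : ℚ[X]) (k : ℚ) (m : RatFunc ℚ) (i j : ℕ),
  Ty1 a b x y k m i j → b ≠ 0 ∧ a ^ 2 - 4 * b ≠ 0 ∧ ¬ IsSquare b

/-- MOB: preimages under a Möbius function.

Proof.  `x = x₁ T + x₀`, `y = y₁ T + y₀`, `(x₁, y₁) ≠ (0, 0)`.  If `x₁ ≠ τ y₁` then `t = - (x₀ - τ y₀) / (x₁ - τ y₁)` is a root of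
`x - τ y`, and `y(t) ≠ 0` (coprime).  `Z'`: the `τ` with `x₁ = τ y₁` (at most one) and the `x(t) / y(t)`, `t ∈ Z`. -/
def MobStmt : Prop := ∀ x y : ℚ[X], Lin x y → ∀ Z : Finset ℚ, ∃ Z' : Finset ℚ, ∀ τ : ℚ,
  τ ∉ Z' → ∃ t : ℚ, t ∉ Z ∧ y.eval t ≠ 0 ∧ x.eval t = τ * y.eval t

/-- EVD: the values.  Uses `GT.F.EvlStmt`.

Proof.  Evaluate the two identities of `Ty1` at `t` outside of the exceptional sets of EVL (for `m`, `lam x y`, ..):
`μ = ev t m ≠ 0`, `ev t (lam x y) = x(t) / y(t)`. -/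
def EvdStmt : Prop := ∀ (a b x y : ℚ[X]) (k : ℚ) (m : RatFunc ℚ) (i j : ℕ),
  Ty1 a b x y k m i j → ∃ Z : Finset ℚ, ∀ t : ℚ, t ∉ Z → ∀ τ : ℚ, x.eval t = τ * y.eval t →
    y.eval t ≠ 0 → ev t m ≠ 0 ∧ m.denom.eval t ≠ 0 ∧
      a.eval t = k * (ev t m) ^ 2 * τ ^ i * (τ - 4) ^ j * τ ∧
      b.eval t = (k * (ev t m) ^ 2 * τ ^ i * (τ - 4) ^ j) ^ 2 * τ

/-- SPM: separation through a Möbius function (STRONG).

Proof.  `x = x₁ T + x₀`, `y = y₁ T + y₀`, `δ = x₁ y₀ - x₀ y₁ ≠ 0`.  For all `c`: `x(t) y(c) - x(c) y(t) = δ (t - c)`.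
`t = (τ y₀ - x₀) / (x₁ - τ y₁)`, `y(t) = δ / (x₁ - τ y₁)`.  `n'` is larger than `n` and than all the primes of the numerators
and denominators of the nonzero ones of the numbers `x₁, x₀, y₁, y₀, δ`, `c` and `x(c), y(c)`, `c - c'`, `x₁ - 4 y₁` for
`c, c' ∈ B`.  Let `c ∈ B`.  (1) `x(c) = 0`: `p` with `v_p(τ) = 1`; `y(c) ≠ 0`, `x₁ ≠ 0`, `v(x₁ - τ y₁) = 0`, `v(y(t)) = 0`,
`τ y(t) y(c) = δ (t - c)`: `v(t - c) = 1`.  (2) `w(c) = 0`: `p` with `v_p(τ - 4) = 1`; `x(c) = 4 y(c) ≠ 0`, `x₁ ≠ 4 y₁` (else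
`w` is constant and not zero), `x₁ - τ y₁ ≡ x₁ - 4 y₁`, `(τ - 4) y(t) y(c) = δ (t - c)`: `v(t - c) = 1`.  (3) `y(c) = 0`: `p` with
`v_p(τ) = -1`; `y₁ ≠ 0`, `v(x₁ - τ y₁) = -1`, `v(y(t)) = 1`, `- x(c) y(t) = δ (t - c)`: `v(t - c) = 1`.  In all cases, for
`c' ∈ B`, `c' ≠ c`: `t - c' = (t - c) + (c - c')` has valuation `0`. -/
def SpmStmt : Prop := ∀ x y : ℚ[X], Lin x y → x - 4 * y ≠ 0 → ∀ B : Finset ℚ,
  (∀ c : ℚ, c ∈ B ↔ (x * y * (x - 4 * y)).eval c = 0) → ∀ n : ℕ, ∃ n' : ℕ, ∀ τ t : ℚ,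
    Sp3 τ n' → y.eval t ≠ 0 → x.eval t = τ * y.eval t → Sep B t n

/-- PM0: type 1, rank zero.  Uses MOB, EVD, DLT, SCL.

Proof.  `Z` = the set of EVD.  For the infinitely many `τ` with `Gd (k τ^i (τ - 4)^j) τ` outside of a finite set MOB gives
`t ∉ Z`; different `τ` have different `t` (`τ = x(t) / y(t)`).  `μ = ev t m`: `a(t) = D μ² τ`, `b(t) = D² μ⁴ τ` with
`D = k τ^i (τ - 4)^j`; SCL: `Tr (a(t)) (b(t))`.  `(fib E t).Δ = 16 b(t)² (a(t)² - 4 b(t)) = 16 b(t)² D² μ⁴ τ (τ - 4) ≠ 0`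
(`τ ≠ 0, 4`, because `0` is a square).  `Two (fib E t)`: for a point `(X₀, Y₀)` put `X = X₀ - e(t)`,
`Y = (2 Y₀ + a₁ X₀ + a₃) / 2`, `Y² = X (X² + a(t) X + b(t))`, so `Y = 0`. -/
def Pm0Stmt : Prop := ∀ (E : WeierstrassCurve ℚ[X]) (e a b x y : ℚ[X]) (k : ℚ)
  (m : RatFunc ℚ) (i j : ℕ), Rt1 E e a b → Ty1 a b x y k m i j →
  {τ : ℚ | Gd (k * τ ^ i * (τ - 4) ^ j) τ}.Infinite →
  {t : ℚ | (fib E t).Δ ≠ 0 ∧ Two (fib E t)}.Infinite

/-- GRV: the generic rank, type V.  Uses RKL, NTD, TWV, MOB, EVD, DLT, `GT.F.EvlStmt`.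

Proof.  `a = - m² l`, `b = m⁴ l`: `X = m²`, `Y = m³` is a point: `P = (e + m², (2 m³ - a₁ (e + m²) - a₃) / 2)` (nonsingular
because `Y ≠ 0`).  Let `τ = 2 n`, `n` odd (infinitely many values), `t` from MOB, outside of the set of EVD and of finitely
many further values: `sp P = (x(t), y(t))`, `2 y(t) + a₁ x(t) + a₃ = 2 μ³ ≠ 0`, `μ = ev t m`.  `fib E t` has `Rt1` with
`a(t) = (-2 n) μ²`, `b(t) = (2 n) μ⁴`.  NTD with the integers `-2 n`, `2 n`: `Dbl` by TWV (`2 n % 4 = 2`),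
`4 n² - 8 n ≠ 0`.  RKL. -/
def GrvStmt : Prop := ∀ (E : WeierstrassCurve ℚ[X]) (e a b x y : ℚ[X]) (m : RatFunc ℚ),
  E.Δ ≠ 0 → Rt1 E e a b → Ty1 a b x y (-1) m 0 0 → 1 ≤ rk (gen E)

/-- GRW: the generic rank, type W.  Uses RKL, NTD, TWV, MOB, EVD, DLT, `GT.F.EvlStmt`.

Proof.  `a = 2 m² (l - 4) l`, `b = 4 m⁴ (l - 4)² l`: `X = m² (l - 4)² / 4`, `Y = m³ (l - 4)² (3 l + 4) / 8` is a point.
Let `τ = 8 n / (2 n - 1)`, `n` odd, `t` from MOB as in GRV.  `τ - 4 = 4 / (2 n - 1)`, `Y(t) ≠ 0`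
(`3 τ + 4 = (32 n - 4) / (2 n - 1)`).  With `μ = ev t m`, `M = 4 μ / (2 n - 1)`: `a(t) = 4 n M²`, `b(t) = 2 n (2 n - 1) M⁴`.
NTD with the integers `4 n`, `2 n (2 n - 1)`: `Dbl` by TWV (`2 n (2 n - 1) % 4 = 2`), `16 n² - 8 n (2 n - 1) = 8 n ≠ 0`. -/
def GrwStmt : Prop := ∀ (E : WeierstrassCurve ℚ[X]) (e a b x y : ℚ[X]) (m : RatFunc ℚ),
  E.Δ ≠ 0 → Rt1 E e a b → Ty1 a b x y 2 m 0 1 → 1 ≤ rk (gen E)

/-- FV1: type V, rank one (STRONG).  Uses TOP, IXQ, R1F, PRB, SCC, GTB, NSB, MOB, EVD, SPM, GRV, DLT.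

Proof.  `B` = the rational roots of `x y w`; GTB, NSB.  TOP with `R = 1`, `1 ≤ rk` from GRV.  Let `n` be given, `n'` from
SPM.  For all `N ≥ n'`: PRB gives `p, q, r > N`, `τ = -2 p / q`; infinitely many `τ` (numerators `2 p`); MOB: `t`
outside of the set of EVD (and different `τ` give different `t`), `Sep B t n` by SPM.  `μ = ev t m`, `a(t) = - τ μ²`,
`b(t) = τ μ⁴ < 0` is not a square, `a(t)² - 4 b(t) = τ (τ - 4) μ⁴ = 4 p r μ⁴ / q²` is not a square (`p ≠ r` primes), and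
`Δ ≠ 0` (DLT for the fibre).  `Cl (a(t)) (b(t)) {1}` and `Cl (-2 a(t)) (a(t)² - 4 b(t)) {1, 2 q r}` by R1F and SCC
(`m = μ`).  IXQ with `S = {1}`, `S' = {1, 2 q r}`: `Ix (2 * (1 * 2))`, and `2 * (1 * 2) = 2 * 2 ^ 1`. -/
def Fv1Stmt : Prop := ∀ (E : WeierstrassCurve ℚ[X]) (e a b x y : ℚ[X]) (m : RatFunc ℚ),
  E.Δ ≠ 0 → Rt1 E e a b → Ty1 a b x y (-1) m 0 0 → rk (gen E) = 1 ∧ (nonJumping E).Infinite

/-- FW1: type W, rank one (STRONG).  Uses TOP, IXQ, R1F, PRB, SCC, GTB, NSB, MOB, EVD, SPM, GRW, DLT.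

Proof.  As FV1 with `τ' = 4 p / r` in the place of `τ` (`Sp3 (4 p / r) N` from PRB): `t` with `x(t) = τ' y(t)`.  Put
`τ = -2 p / q`, `M = -4 μ q / r`.  `a(t) = 2 μ² (τ' - 4) τ' = -64 p q μ² / r² = 2 τ M²`,
`b(t) = 4 μ⁴ (τ' - 4)² τ' = 1024 p q² μ⁴ / r³ = (τ² - 4 τ) M⁴` (`τ' - 4 = -8 q / r`, `r = p + 2 q`), a nonsquare
(`τ (τ - 4) = 4 p r / q²`); `a(t)² - 4 b(t) = 16 τ M⁴ < 0` is not a square.  `Cl (a(t)) (b(t)) {1, 2 q r}` by R1F and SCC;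
`Cl (-2 a(t)) (a(t)² - 4 b(t)) {1}`: `-2 a(t) = (-2 (-2 (-τ))) M²`, ..: SCC (2), then (1), and R1F.  IXQ with
`S = {1, 2 q r}`, `S' = {1}`. -/
def Fw1Stmt : Prop := ∀ (E : WeierstrassCurve ℚ[X]) (e a b x y : ℚ[X]) (m : RatFunc ℚ),
  E.Δ ≠ 0 → Rt1 E e a b → Ty1 a b x y 2 m 0 1 → rk (gen E) = 1 ∧ (nonJumping E).Infinite

/-- FT1: type 1, conclusion.  Uses PM0, FV1, FW1, ARV, ARU, ARW, ARS, `NJ.GENStmt`, `NJ.RK0Stmt`.

Proof.  `(i, j) = (0, 0)`: if `- k = c²` then `k m² = - (c m)²` and `Ty1 a b x y (-1) (c m) 0 0`: FV1.  Otherwise ARV, PM0.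
`(0, 1)`: if `2 k = c²`, then `k m² = 2 (c m / 2)²`: FW1; otherwise ARW, PM0.  `(1, 0)`: ARU, PM0.  `(1, 1)`: ARS, PM0.
After PM0: GEN and RK0 (`rk (gen E) = 0`, and `rk (fib E t) = 0` for the infinitely many `t`). -/
def Ft1Stmt : Prop := ∀ (E : WeierstrassCurve ℚ[X]) (e a b x y : ℚ[X]) (k : ℚ)
  (m : RatFunc ℚ) (i j : ℕ), E.Δ ≠ 0 → Rt1 E e a b → Ty1 a b x y k m i j → i ≤ 1 → j ≤ 1 →
  (rk (gen E) = 0 ∨ rk (gen E) = 1) ∧ (nonJumping E).Infinite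

/-! ## Block S: structure -/

/-- TO1: the 2-torsion point.

Proof.  `P = (x, y)`, `P = -P`: `2 y + a₁ x + a₃ = 0`, so `4 x³ + b₂ x² + 2 b₄ x + b₆ = 0`: `4 x` is integral over `ℚ[T]`, so
`x = e ∈ ℚ[T]` (as `Pool.Agent.GT.OF.H84.pol`, file Helper84_GT/E_PLR.lean).  `a = (b₂ + 12 e) / 4`,
`b = (b₄ - 6 e² + 4 a e) / 2`; the third equation is the equation of `e`. -/
def To1Stmt : Prop := ∀ E : WeierstrassCurve ℚ[X], E.Δ ≠ 0 → HasTwo (gen E) →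
  ∃ e a b : ℚ[X], Rt1 E e a b

/-- NI1: nonisotriviality.  Uses DLT.

Proof.  `c₄ = b₂² - 24 b₄ = 16 (a² - 3 b)`, `Δ = 16 b² (a² - 4 b)`.  If `a² = c b`: `c₄³ = 4096 (c - 3)³ b³`,
`Δ = 16 (c - 4) b³ ≠ 0`, so `c₄³ = C (256 (c - 3)³ / (c - 4)) Δ`: contradiction. -/
def Ni1Stmt : Prop := ∀ (E : WeierstrassCurve ℚ[X]) (e a b : ℚ[X]), E.Δ ≠ 0 →
  Nonisotrivial E → Rt1 E e a b → ∀ c : ℚ, a ^ 2 ≠ C c * b

/-- GD1: good reduction in terms of `a`, `b`.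

Proof.  `C = (u, r, s, t)` the change of variables.  `C • W` has `Rt1` with `e' = (e - r) / u²`, `a' = a / u²`,
`b' = b / u⁴` (from the formulas for the `b_i` of `C • W`).  `e'` is a root of `4 x³ + b₂' x² + 2 b₄' x + b₆'` with
coefficients in `A`, `4` is a unit of `A`: `e' ∈ A` (valuation rings are integrally closed).  So
`a' = (b₂' + 12 e') / 4 ∈ A`, `b' ∈ A`, and `Δ' = 16 b'² (a'² - 4 b')` is a unit, so `b'` and `a'² - 4 b'` are units.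
`v = u`.  (As GDR, Helper37_NJ/Gdr.lean.) -/
def Gd1Stmt : Prop := ∀ (W : WeierstrassCurve (RatFunc ℂ)) (A : ValuationSubring (RatFunc ℂ))
  (e a b : RatFunc ℂ), (∀ c : ℂ, RatFunc.C c ∈ A) → Rt1 W e a b → GoodAt W A →
  ∃ v : RatFunc ℂ, v ≠ 0 ∧ a / v ^ 2 ∈ A ∧ b / v ^ 4 ∈ A ∧ (b / v ^ 4)⁻¹ ∈ A ∧
    (a ^ 2 - 4 * b) / v ^ 4 ∈ A ∧ ((a ^ 2 - 4 * b) / v ^ 4)⁻¹ ∈ A ∧ b ≠ 0 ∧ a ^ 2 - 4 * b ≠ 0

/-- GBI: the isogenous curve has no further bad places.  Uses GD1.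

Proof.  Let `A` be a place where `genC E` is good, `v` from GD1 (for the images of `e, a, b`).  The change of variables
`(v, 0, 0, 0)` of `⟨0, -2 a, 0, a² - 4 b, 0⟩` has the coefficients `-2 a / v²`, `(a² - 4 b) / v⁴` in `A` and the
discriminant `16 ((a² - 4 b) / v⁴)² (16 b / v⁴)`, a unit. -/
def GbiStmt : Prop := ∀ (E : WeierstrassCurve ℚ[X]) (e a b : ℚ[X]), Rt1 E e a b →
  badPlaces ⟨0, -2 * a, 0, a ^ 2 - 4 * b, 0⟩ ⊆ badPlaces E

/-- BD1: bad places in polynomial form (STRONG; as BAD, Helper75_NJ/Bad.lean, and D_BDR).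
Uses GD1, DLT, `NJ.PLCStmt`.

Proof.  For `t ∈ ℂ` let `A t`, `v` be the place of PLC with the order `v` (multiplicity at `t`).  If `genC E` is good at
`A t`: GD1 gives `u` with `v(b) = 4 v(u)`, `v(a² - 4 b) = 4 v(u)`, `v(a) ≥ 2 v(u)` (or `a = 0`); `v(b) ≥ 0`, so `m = v(u) ≥ 0`
and `Gt a b t`.  So `¬ Gt a b t` implies that `A t` is bad, so `RatPl (A t)`; `RatFunc.X ∈ A t`, and for `t ≠ c`
`(X - c)⁻¹ ∈ A t`, so `t = c` for a rational `c`.  In the same way for the place at infinity (`v = - natDegree`):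
good implies `Gi a b`.  Different `t` give different places, also different from the one at infinity. -/
def Bd1Stmt : Prop := ∀ (E : WeierstrassCurve ℚ[X]) (e a b : ℚ[X]), E.Δ ≠ 0 → Rt1 E e a b →
  (∀ A ∈ badPlaces E, GT.D.RatPl A) → (badPlaces E).encard ≤ 3 → Few1 a b

/-- RHB: the number of points over `0`, `4`, `∞` (Mason-Stothers with the point at infinity, STRONG).

Proof.  `w = f - 4 g`, `n = max (deg f) (deg g)`.  `V = f g' - f' g ≠ 0` (`f / g` is not constant; `f`, `g` coprime, not both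
constant); up to the factors `± 4`, `± 1` it is also `f w' - f' w` and `g w' - g' w`.  In `ℂ[T]`: if `t` is a root of `f` (of
`g`, of `w`) of multiplicity `h`, then `(T - t)^(h - 1)` divides `V`; `f, g, w` are pairwise coprime, so
`deg f + deg g + deg w - #F ≤ deg V`, `F` = the set of the roots of `f g w`.  If `deg f = deg g = deg w = n` then
`deg V ≤ 2 n - 2` (the coefficient of `T^(2 n - 1)` is `n f_n g_n - n f_n g_n`), so `#F ≥ n + 2`.  Otherwise exactly one of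
the three degrees is `d < n`, `deg V ≤ n + d - 1` (use the expression with this one), and `#F ≥ n + 1`.  (Mathlib:
`Polynomial.wronskian`, `Polynomial.divRadical`, the proof of `Polynomial.abc`.) -/
def RhbStmt : Prop := ∀ f g : ℚ[X], IsCoprime f g → ¬ (f.natDegree = 0 ∧ g.natDegree = 0) →
  f ≠ 0 → g ≠ 0 → f - 4 * g ≠ 0 → ∃ F : Finset ℂ,
    (∀ t : ℂ, t ∈ F ↔ aeval t (f * g * (f - 4 * g)) = 0) ∧
    ((f.natDegree = g.natDegree ∧ g.natDegree = (f - 4 * g).natDegree) →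
      max f.natDegree g.natDegree + 2 ≤ F.card) ∧
    max f.natDegree g.natDegree + 1 ≤ F.card

/-- CLA: classification (STRONG).  Uses RHB.

Proof.  `h = gcd(a², b)`, `a² = h f`, `b = h g`, `w = f - 4 g`, `a² - 4 b = h w`, `n = max (deg f) (deg g) ≥ 1` (`a² ≠ c b`).
`a² g = b f`, `a² w = (a² - 4 b) f`.  (1) Roots `t` of `g`, of `w`, and roots of odd multiplicity of `f` are bad: if `Gt`
with `m`: `g(t) = 0` gives `mult(a²) < mult(b) = 4 m ≤ mult(a²)`; `w(t) = 0` gives `mult(a² - 4 b) > mult(b)`; odd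
multiplicity of `f` gives `mult(a²) - mult(b)` odd, both even: contradictions.  In the same way with degrees: `¬ Gi`
if `deg g < n`, if `deg w < n`, or if `deg f < n` and `n - deg f` is odd.  (2) Let `A, B, C` be the numbers of the
points of the projective line over `∞, 4, 0` (roots of `g`, `w`, `f`, and `∞` if `deg g < n`, `deg w < n`, `deg f < n`; at
most one of these holds), `C₁ ≤ C` the number of those over `0` with odd order.  RHB: `A + B + C ≥ n + 2`.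
`2 C - C₁ ≤ n`.  `Few1`: `A + B + C₁ ≤ 3`.  So `n + 4 ≤ 2 (A + B) + C₁ ≤ 6 - C₁`: `n + C₁ ≤ 2`.
(3) `n = 1`: `x = f`, `y = g`.  (4) `n = 2`: `C₁ = 0`, `C = 1`, `A + B = 3`.  `C = 1`: `f = c₁ x²` with `x` linear or `1` (a double
root of a rational polynomial of degree 2 is rational).  If `A = 1`, `B = 2`: `g = c₂ y²`, `w` has a root `t₀`, bad, so
rational: `c₁ x(t₀)² = 4 c₂ y(t₀)² ≠ 0`, so `c₁ c₂` is a square, and `b = (c₂ / c₁) (a y / x)²` is a square in `ℚ(T)`, so in `ℚ[T]`.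
If `A = 2`, `B = 1`: `w = c₃ u²`, `g` has a rational root `t₀`: `c₁ x(t₀)² = c₃ u(t₀)²`, `c₁ c₃` is a square,
`a² - 4 b = (c₃ / c₁) (a u / x)²` is a square. -/
def ClaStmt : Prop := ∀ a b : ℚ[X], b ≠ 0 → a ^ 2 - 4 * b ≠ 0 → (∀ c : ℚ, a ^ 2 ≠ C c * b) →
  Few1 a b → IsSquare b ∨ IsSquare (a ^ 2 - 4 * b) ∨ ∃ x y : ℚ[X], Lin x y ∧ a ^ 2 * y = b * x

/-- CLB: the twisting factor (STRONG).  Uses `GT.D.SqpStmt`.

Proof.  `w = x - 4 y`, `(a² - 4 b) y = b w`, so `w ≠ 0`; `a ≠ 0`.  (1) The roots of `x`, `y`, `w` are bad: at a root of `x` or `y`: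
`2 mult(a) = mult(b) ± 1`, `mult(b)` odd; at a root of `w`: `mult(a² - 4 b) = mult(b) + 1`.  If one of `x, y, w` is
constant, then `¬ Gi` (the same with degrees).  `x, y, w` are pairwise coprime, so there are three different roots, or two
and `¬ Gi`; by `Few1` all other `t ∈ ℂ` are `Gt`, and if all three degrees are 1 then `Gi`.
(2) For `t` with `(x y w)(t) ≠ 0`: `mult(b) = 4 m`, `2 mult(a) = mult(b)`, so `mult(a b) = 6 m` is even.  SQP: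
`a b = κ s² ∏_(c ∈ R) (T - c)`, `R` ⊆ the roots of `x y w`; `D = b / a = a b / a²`; each `T - c` is a constant times `x`, `y` or
`w`: `D = κ' m² x^(h₀) y^(h₁) w^(h₂)` with `h ∈ {0, 1}` and `h = 0` for a constant form.  `a = D l`, `b = D² l` (`l = a² / b`).
(3) `x = y l`, `w = y (l - 4)`.  All degrees 1: `deg(a b) = 6 m` (`Gi`), so `h₀ + h₁ + h₂` is even: `D` is a constant times a
square times `1`, `x y = y² l`, `x w = y² l (l - 4)` or `y w = y² (l - 4)`.  `y` constant: `x` is a constant times `l`, `w` a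
constant times `l - 4`.  `x` constant: `y` is a constant times `1 / l`, so `l` up to squares; `w` is `l (l - 4)` up to
constants and squares.  `w` constant: `y` is `1 / (l - 4)` times a constant, `x` is `l (l - 4)` up to constants and
squares.  In all cases `D = k m² l^i (l - 4)^j`, `i, j ≤ 1`. -/
def ClbStmt : Prop := ∀ a b x y : ℚ[X], b ≠ 0 → a ^ 2 - 4 * b ≠ 0 → Few1 a b → Lin x y →
  a ^ 2 * y = b * x → ∃ (k : ℚ) (m : RatFunc ℚ) (i j : ℕ), i ≤ 1 ∧ j ≤ 1 ∧ Ty1 a b x y k m i j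

/-- NJF: the infinite set for full 2-torsion.  Uses `NJ.TORStmt`, `NJ.POLStmt`, `NJ.NISStmt`, `NJ.BADStmt`, `NJ.DEGStmt`,
`NJ.TWSStmt`, `NJ.PARStmt`, `NJ.FIBStmt`.

Proof.  The first part of `NJ.main_of` (Helper32_NJ/Asm.lean): the set `hF` there. -/
def NjfStmt : Prop := ∀ E : WeierstrassCurve ℚ[X], E.Δ ≠ 0 → Nonisotrivial E →
  FullTwo (gen E) → (badPlaces E).encard ≤ 3 → {t : ℚ | (fib E t).Δ ≠ 0 ∧ Two (fib E t)}.Infinite

/-- FT2: full 2-torsion.  Uses DLT, `GT.F.TorStmt`.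

Proof.  `a² - 4 b = s²`, the roots are `e`, `e + (-a + s) / 2`, `e + (-a - s) / 2`, pairwise different because
`Δ = 16 b² (a² - 4 b) ≠ 0`; `NJ.Roots` follows from `Rt1`; TOR (`2 • P = P + P`). -/
def Ft2Stmt : Prop := ∀ (K : Type) [Field K] [CharZero K] (W : WeierstrassCurve K) (e a b : K),
  W.Δ ≠ 0 → Rt1 W e a b → IsSquare (a ^ 2 - 4 * b) → FullTwo W

/-- T4A: points of the isogenous fibre.

Proof.  `X = x - e`, `Y = (2 y + a₁ x + a₃) / 2`.  If `Y ≠ 0` then `X ≠ 0`, and `x' = Y² / X² = X + a + b / X`,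
`y' = Y (X² - b) / X²` satisfy `y'² = x' ((x' - a)² - 4 b)`; `Two` gives `y' = 0`, so `X² = b`. -/
def T4aStmt : Prop := ∀ (K : Type) [Field K] [CharZero K] (W : WeierstrassCurve K) (e a b : K),
  Rt1 W e a b → Two (⟨0, -2 * a, 0, a ^ 2 - 4 * b, 0⟩ : WeierstrassCurve K) →
  ∀ x y : K, W.toAffine.Equation x y → 2 * y + W.a₁ * x + W.a₃ = 0 ∨ (x - e) ^ 2 = b

/-- T4B: the generic fibre (as GEN, Helper24_NJ/Gen.lean).

Proof.  Let `(x, y)` be a point of `gen E`.  For all but finitely many `t` `x`, `y` have no pole at `t` and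
`(x(t), y(t))` is a point of `fib E t`, so `(2 y + a₁ x + a₃) ((x - e)² - b)` vanishes at infinitely many `t` and is `0`. -/
def T4bStmt : Prop := ∀ (E : WeierstrassCurve ℚ[X]) (e b : ℚ[X]),
  {t : ℚ | ∀ x y : ℚ, (fib E t).toAffine.Equation x y →
    2 * y + (fib E t).a₁ * x + (fib E t).a₃ = 0 ∨ (x - e.eval t) ^ 2 = b.eval t}.Infinite →
  ∀ x y : RatFunc ℚ, (gen E).toAffine.Equation x y →
    2 * y + (gen E).a₁ * x + (gen E).a₃ = 0 ∨
      (x - algebraMap ℚ[X] (RatFunc ℚ) e) ^ 2 = algebraMap ℚ[X] (RatFunc ℚ) b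

/-- T4C: rank zero.

Proof.  If `2 y + a₁ x + a₃ = 0` then `4 (x - e) ((x - e)² + a (x - e) + b) = 0`.  So there are at most five values of `x`, for
each at most two values of `y` (a monic quadratic equation): the group of points is finite, its rank is `0`. -/
def T4cStmt : Prop := ∀ (K : Type) [Field K] [CharZero K] (W : WeierstrassCurve K) (e a b : K),
  Rt1 W e a b → (∀ x y : K, W.toAffine.Equation x y → 2 * y + W.a₁ * x + W.a₃ = 0 ∨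
    (x - e) ^ 2 = b) → rk W = 0

/-- FSQ: the case of a square `b`.  Uses NJF, GBI, FT2, T4A, T4B, T4C, NI1, DLT.

Proof.  `E' = ⟨0, -2 a, 0, a² - 4 b, 0⟩` (`Rt1 E' 0 (-2 a) (a² - 4 b)`), `Δ' = 256 b (a² - 4 b)² ≠ 0`.  `b` is a square, so
`(-2 a)² - 4 (a² - 4 b) = 16 b` is one: FT2 for `gen E'`.  Nonisotrivial: `c₄' = 16 (a² + 12 b)`; if `c₄'³ = C c Δ'`, then with
`l = a² / b` `16 (l + 12)³ = c (l - 4)²`, so `l` is algebraic over `ℚ`, so constant (`ℚ` is algebraically closed in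
`ℚ(T)`), contradiction to NI1.  Bad places: GBI.  NJF for `E'`: infinitely many `t`; for these `b(t)`,
`a(t)² - 4 b(t) ≠ 0`, so `(fib E t).Δ ≠ 0`, and T4A, T4C for the fibres (`fib E' t = ⟨0, -2 a(t), 0, .., 0⟩`), T4B and T4C for
`gen E`. -/
def FsqStmt : Prop := ∀ (E : WeierstrassCurve ℚ[X]) (e a b : ℚ[X]), E.Δ ≠ 0 →
  Nonisotrivial E → Rt1 E e a b → (badPlaces E).encard ≤ 3 → IsSquare b →
  rk (gen E) = 0 ∧ (nonJumping E).Infinite

/-- The final theorem. -/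
def MainStmt : Prop := ∀ E : WeierstrassCurve ℚ[X], E.Δ ≠ 0 → Nonisotrivial E →
  HasTwo (gen E) → (∀ A ∈ badPlaces E, GT.D.RatPl A) → (badPlaces E).encard ≤ 3 →
  (rk (gen E) = 0 ∨ rk (gen E) = 1) ∧ (nonJumping E).Infinite

/-- Assembly. -/
theorem main_of (to1 : To1Stmt) (ni1 : Ni1Stmt) (bd1 : Bd1Stmt) (dlt : DltStmt) (cla : ClaStmt)
    (clb : ClbStmt) (ft1 : Ft1Stmt) (fsq : FsqStmt) (ft2 : Ft2Stmt) (njm : NJ.MainStmt) :
    MainStmt := by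
  intro E hΔ hni h2 hr hb
  obtain ⟨e, a, b, hR⟩ := to1 E hΔ h2
  have hD := dlt _ E e a b hR
  have hb0 : b ≠ 0 := by
    rintro rfl
    exact hΔ (by rw [hD]; ring)
  have hc0 : a ^ 2 - 4 * b ≠ 0 := by
    intro h
    exact hΔ (by rw [hD, h]; ring)
  have hF := bd1 E e a b hΔ hR hr hb
  rcases cla a b hb0 hc0 (ni1 E e a b hΔ hni hR) hF with h | h | ⟨x, y, hl, hxy⟩
  · obtain ⟨h3, h4⟩ := fsq E e a b hΔ hni hR hb h
    exact ⟨Or.inl h3, h4⟩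
  · have hg : (gen E).Δ ≠ 0 := by
      unfold gen
      rw [WeierstrassCurve.map_Δ]
      exact (map_ne_zero_iff _ (IsFractionRing.injective ℚ[X] (RatFunc ℚ))).2 hΔ
    have hch : CharZero (RatFunc ℚ) :=
      charZero_of_injective_algebraMap (R := ℚ[X])
        (IsFractionRing.injective ℚ[X] (RatFunc ℚ))
    have hR' : Rt1 (gen E) (algebraMap ℚ[X] (RatFunc ℚ) e) (algebraMap ℚ[X] (RatFunc ℚ) a)
        (algebraMap ℚ[X] (RatFunc ℚ) b) := hR.map _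
    have hs : IsSquare (algebraMap ℚ[X] (RatFunc ℚ) a ^ 2 -
        4 * algebraMap ℚ[X] (RatFunc ℚ) b) := by
      obtain ⟨s, hs⟩ := h
      refine ⟨algebraMap ℚ[X] (RatFunc ℚ) s, ?_⟩
      rw [← map_mul, ← hs]
      simp only [map_sub, map_mul, map_pow, map_ofNat]
    obtain ⟨h3, h4⟩ := njm E hΔ hni (ft2 _ (gen E) _ _ _ hg hR' hs) hb
    exact ⟨Or.inl h3, h4⟩
  · obtain ⟨k, m, i, j, hi, hj, hT⟩ := clb a b x y hb0 hc0 hF hl hxy
    exact ft1 E e a b x y k m i j hΔ hR hT hi hj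

end

end Pool.Agent.G02
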